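import Pool.Agent.Q57.GC.Main
import Pool.Agent.Q57.TC.TopA
import Pool.Agent.Q57.TC.TopB

/-!
The chambers of the combinations of log canonical divisors: the main theorems for the two families.
-/

set_option autoImplicit false
set_option linter.overlappingInstances false
set_option linter.unusedSectionVars false
set_option maxHeartbeats 1000000

open FF MvPolynomial Pool.Agent.W603.LV Pool.Agent.W602.GT Pool.Agent.W602.Cov
open Pool.Agent.TH756.PR Pool.Agent.TH122.AB Pool.Agent.TH756.PN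
open Pool.Agent.Y169.CH Pool.Agent.Q57.TP Pool.Agent.Q57.TQ Pool.Agent.Q57.GM
open Pool.Agent.Q57.GH Pool.Agent.Q57.FG Pool.Agent.Q57.FH Pool.Agent.Q57.GG Pool.Agent.Q57.GE
open Pool.Agent.Q57.FT Pool.Agent.Q57.TC Pool.Agent.Y169.TH Pool.Agent.W619.PQ

namespace Pool.Agent.Q57.GC

variable {r N R p : ℕ} {n : Fin r → ℕ} {K : Type} [Field K] [Algebra ℂ K]

/-- the conclusion of the main theorems -/
def Chambers (N : ℕ) (δ : Fin p → Place ℂ K → ℚ) : Prop :=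
    ∃ (T n : ℕ) (h : Fin n → Fin p → ℚ), 1 ≤ T ∧
      (∀ lam lam' : Fin p → ℝ, (∀ i, 0 ≤ lam i) → PsefR N δ lam → Cell h lam lam' →
        (∀ i, 0 ≤ lam' i) ∧ PsefR N δ lam' ∧ (NefR N δ lam → NefR N δ lam')) ∧
      (∀ μ : Fin p →₀ ℕ, NefR N δ (fun i => (μ i : ℝ)) → ∀ P : Place ℂ K, Divisorial N P →
        ∃ η, MSec N δ (T • μ) η ∧ NV N δ (T • μ) η P) ∧
      ∀ (P : Place ℂ K) (D : Fin N → Derivation ℂ K K),
        (∃ (S : Finset K) (μ : Fin p →₀ ℕ) (j : ℕ) (η : (Fin N → Derivation ℂ K K) → K), μ ≠ 0 ∧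
          ASec N δ S μ j η ∧ η D ≠ 0) →
        ∃ σ : (Fin p → ℝ) → ℝ,
          (∀ lam, (∀ i, 0 ≤ lam i) → PsefR N δ lam → AsOrd N δ P D lam (σ lam)) ∧
          (∀ lam (c : ℝ), (∀ i, 0 ≤ lam i) → PsefR N δ lam → 0 ≤ c →
            σ (c • lam) = c * σ lam) ∧
          (∀ lam lam1 lam2, (∀ i, 0 ≤ lam i) → PsefR N δ lam → Cell h lam lam1 →
            Cell h lam lam2 → σ (lam1 + lam2) = σ lam1 + σ lam2) ∧
          ∀ μ : Fin p →₀ ℕ, PsefR N δ (fun i => (μ i : ℝ)) →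
            ∃ η, MSec N δ (T • μ) η ∧ η D ≠ 0 ∧
              (P.ord (η D) : ℝ) = T * σ fun i => (μ i : ℝ)

/-- **Products.** -/
theorem top_b (hr : 1 ≤ r) (hn : ∀ i, 1 ≤ n i) (hN : N = ∑ i, n i)
    {F : ∀ i, MvPolynomial (Fin (n i + 1)) ℂ} {d : Fin r → ℕ} (hd : ∀ i, 1 ≤ d i)
    (hh : ∀ i, (F i).IsHomogeneous (d i)) (hs : ∀ i, SmF (F i))
    {x : ∀ i, Fin (n i + 1) → K} (hx0 : ∀ i, x i 0 ≠ 0)
    (hbas : IsTranscendenceBasis ℂ (aff x)) {m : Fin R → ℕ} (hm : ∀ j, 0 < m j)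
    {a : Fin R → Fin r → ℕ} (hdiv : ∀ j i, m j ∣ a j i * d i) {z : Fin R → K}
    (hz : ∀ j, z j ^ m j = ∏ i, (aeval (x i) (F i) / x i 0 ^ d i) ^ a j i)
    (hgen : IntermediateField.adjoin ℂ (Set.range (aff x) ∪ Set.range z) = ⊤)
    {ψ : Fin p → (Fin r → ℕ) → ℚ} (hψ0 : ∀ i, ψ i 0 = 0) (hψ1 : ∀ i v, 0 ≤ ψ i v)
    (hmul : ∀ i v (k : ℕ), 1 ≤ k → Pool.Agent.Y169.CH.Adm m a v → ψ i (k • v) ≤ k * ψ i v)
    (hfg : ∃ T : Finset (Fin r → ℕ), (∀ s ∈ T, Pool.Agent.Y169.CH.Adm m a s) ∧ ∀ v, Pool.Agent.Y169.CH.Adm m a v →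
      ∃ w : (Fin r → ℕ) → ℚ, (∀ s, 0 ≤ w s) ∧ (∀ k, ∑ s ∈ T, w s * s k ≤ v k) ∧
        ∀ i, ψ i v ≤ ∑ s ∈ T, w s * ψ i s) {δ : Fin p → Place ℂ K → ℚ}
    (hδ : ∀ i P, δ i P = 1 - ψ i (mulQ F d x P) - lD F d x P) : Chambers N δ := by
  classical
  obtain ⟨N0, g, ω, h1, h2, h5, w, u, D0, hu, h3, h4⟩ :=
    main_b (c := fun i => cps (ψ i)) (δ := δ) hr hn hN hd hh hs hx0 hbas hm hdiv hz hgen
      (fun i => if_pos rfl) (fun i v => by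
        unfold cps
        split_ifs
        · exact zero_le_one
        · linarith [hψ1 i v]) (fun i => cps_mul (hmul i)) (by
        obtain ⟨T, hT1, hT2⟩ := hfg
        refine ⟨T, hT1, fun v hv => ?_⟩
        obtain ⟨w, h1, h2, h3⟩ := hT2 v hv
        refine ⟨w, h1, h2, fun i => ?_⟩
        rw [cps_ne hv.1, sub_sub_cancel]
        refine (h3 i).trans (le_of_eq (Finset.sum_congr rfl fun s hs => ?_))
        rw [cps_ne (hT1 s hs).1, sub_sub_cancel]) (fun i P => by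
        rw [hδ]
        by_cases hv : mulQ F d x P = 0
        · rw [if_pos hv, hv, hψ0, sub_zero]
        · rw [if_neg hv, cps_ne hv])
  exact main_gc hu h4 h1 h3 h5 h2

end Pool.Agent.Q57.GC

namespace Pool.Agent.Q57.GC

variable {d R p : ℕ} {K : Type} [Field K] [Algebra ℂ K]
  {x : Fin (d + 2) → K} {F : Fin (d + 2) → MvPolynomial (Fin (d + 2)) ℂ}
  {dF : Fin (d + 2) → ℕ} {z : Fin R → K} {M : Fin R → ℕ} {a : Fin R → Fin (d + 2) → ℕ}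

/-- **Covers of the projective space.** -/
theorem top_a (hx0 : x 0 ≠ 0)
    (hbas : IsTranscendenceBasis ℂ fun b : Fin (d + 1) => x b.succ / x 0) (hd : ∀ k, 0 < dF k)
    (hh : ∀ k, (F k).IsHomogeneous (dF k)) (hS : Snc F) (hM : ∀ j, 0 < M j)
    (hz : ∀ j, z j ^ M j = ∏ k, (aeval x (F k) / x 0 ^ dF k) ^ a j k)
    (hdiv : ∀ j, M j ∣ ∑ k, a j k * dF k)
    (hgen : IntermediateField.adjoin ℂ
      (Set.range (fun b : Fin (d + 1) => x b.succ / x 0) ∪ Set.range z) = ⊤)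
    (hκ : d + 2 ≤ ∑ k, dF k)
    {ψ : Fin p → (Fin (d + 2) → ℕ) → ℚ} (hψ0 : ∀ i, ψ i 0 = 0) (hψ1 : ∀ i v, 0 ≤ ψ i v)
    (hmul : ∀ i v (r : ℕ), 1 ≤ r → Pool.Agent.Y169.TH.Adm M a v → ψ i (r • v) ≤ r * ψ i v)
    (hfg : ∃ T : Finset (Fin (d + 2) → ℕ), (∀ s ∈ T, Pool.Agent.Y169.TH.Adm M a s) ∧
      ∀ v, Pool.Agent.Y169.TH.Adm M a v →
      ∃ w : (Fin (d + 2) → ℕ) → ℚ, (∀ s, 0 ≤ w s) ∧ (∀ k, ∑ s ∈ T, w s * s k ≤ v k) ∧
        ∀ i, ψ i v ≤ ∑ s ∈ T, w s * ψ i s) {δ : Fin p → Place ℂ K → ℚ}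
    (hδ : ∀ i P, δ i P = 1 - ψ i (mul F dF x P) - lDA F dF x P) : Chambers (d + 1) δ := by
  classical
  obtain ⟨N0, g, ω, h1, h2, h5, w, u, D0, hu, h3, h4⟩ :=
    main_a (c := fun i => cpa (ψ i)) (δ := δ) hx0 hbas hd hh hS hM hz hdiv hgen hκ
      (fun i => if_pos rfl) (fun i => cpa_le (hψ1 i)) (fun i => cpa_mul (hmul i)) (by
        obtain ⟨T, hT1, hT2⟩ := hfg
        refine ⟨T, hT1, fun v hv => ?_⟩
        obtain ⟨w, h1, h2, h3⟩ := hT2 v hv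
        refine ⟨w, h1, h2, fun i => ?_⟩
        rw [cpa_ne hv.1, sub_sub_cancel]
        refine (h3 i).trans (le_of_eq (Finset.sum_congr rfl fun s hs => ?_))
        rw [cpa_ne (hT1 s hs).1, sub_sub_cancel]) (fun i P => by
        rw [hδ, cpa_ite (hψ0 i)])
  exact main_gc hu h4 h1 h3 h5 h2

end Pool.Agent.Q57.GC
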