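import Pool.Agent.Q57.GC.Lp

/-!
The value of a rational linear program is additive on the cells of a finite arrangement.
-/

set_option autoImplicit false

namespace Pool.Agent.Q57.GC

variable {r p : ℕ}

theorem exists_coord (g : Fin r → Fin p → ℚ) (S : Finset (Fin r)) :
    ∃ h : Fin r → Fin p → ℚ,
      (∀ s : Fin r → ℚ, (∀ b, b ∉ S → s b = 0) → (∀ i, ∑ b, s b * g b i = 0) → s = 0) →
      ∀ b ∈ S, ∀ j ∈ S, ∑ k, g b k * h j k = if b = j then 1 else 0 := by
  classical
  by_cases hS : ∀ s : Fin r → ℚ, (∀ b, b ∉ S → s b = 0) → (∀ i, ∑ b, s b * g b i = 0) → s = 0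
  · let f : (S → ℚ) →ₗ[ℚ] (Fin p → ℚ) :=
      { toFun := fun s i => ∑ b : S, s b * g b i
        map_add' := fun s t => by
          funext i
          rw [Pi.add_apply, ← Finset.sum_add_distrib]
          exact Finset.sum_congr rfl fun b _ => by rw [Pi.add_apply]; ring
        map_smul' := fun c s => by
          funext i
          rw [Pi.smul_apply, RingHom.id_apply, smul_eq_mul, Finset.mul_sum]
          exact Finset.sum_congr rfl fun b _ => by rw [Pi.smul_apply, smul_eq_mul]; ring }
    have hker : LinearMap.ker f = ⊥ := by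
      rw [LinearMap.ker_eq_bot']
      intro s hs
      have h1 := hS (fun b => if hb : b ∈ S then s ⟨b, hb⟩ else 0)
        (fun b hb => by rw [dif_neg hb]) (fun i => by
          have h2 : ∑ b : S, s b * g b i = 0 := congrFun hs i
          refine Eq.trans ?_ h2
          rw [← Finset.sum_subset (Finset.subset_univ S) (fun b _ hb => by
            rw [dif_neg hb, zero_mul]), ← Finset.sum_coe_sort S]
          exact Finset.sum_congr rfl fun b _ => by rw [dif_pos b.2])
      funext b
      have h2 := congrFun h1 b.1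
      rw [dif_pos b.2] at h2
      exact h2
    obtain ⟨φ, hφ⟩ := f.exists_leftInverse_of_injective hker
    refine ⟨fun j k => if hj : j ∈ S then φ (Pi.single k 1) ⟨j, hj⟩ else 0,
      fun _ b hb j hj => ?_⟩
    have h1 : φ (f (Pi.single ⟨b, hb⟩ 1)) = Pi.single ⟨b, hb⟩ 1 := by
      rw [← LinearMap.comp_apply, hφ, LinearMap.id_apply]
    have h2 : f (Pi.single ⟨b, hb⟩ 1) = g b := by
      funext i
      change ∑ b' : S, (Pi.single ⟨b, hb⟩ 1 : S → ℚ) b' * g b' i = g b i
      rw [Finset.sum_eq_single ⟨b, hb⟩]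
      · rw [Pi.single_eq_same, one_mul]
      · intro b' _ hb'
        rw [Pi.single_eq_of_ne hb', zero_mul]
      · intro h
        exact absurd (Finset.mem_univ _) h
    have h3 : g b = ∑ k, g b k • (Pi.single k 1 : Fin p → ℚ) := by
      funext i
      rw [Finset.sum_apply, Finset.sum_eq_single i]
      · rw [Pi.smul_apply, Pi.single_eq_same, smul_eq_mul, mul_one]
      · intro k _ hk
        rw [Pi.smul_apply, Pi.single_eq_of_ne (Ne.symm hk), smul_zero]
      · intro h
        exact absurd (Finset.mem_univ _) h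
    rw [h2, h3, map_sum] at h1
    have h4 := congrFun h1 ⟨j, hj⟩
    rw [Finset.sum_apply] at h4
    simp only [map_smul, Pi.smul_apply, smul_eq_mul] at h4
    simp only [dif_pos hj]
    rw [h4, Pi.single_apply]
    simp only [Subtype.mk.injEq, eq_comm]
  · exact ⟨0, fun h => absurd h hS⟩

/-- the value of a linear form -/
def pair (h : Fin p → ℚ) (lam : Fin p → ℝ) : ℝ := ∑ k, lam k * h k

theorem pair_add (h : Fin p → ℚ) (lam lam' : Fin p → ℝ) :
    pair h (lam + lam') = pair h lam + pair h lam' := by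
  unfold pair
  rw [← Finset.sum_add_distrib]
  exact Finset.sum_congr rfl fun b _ => by rw [Pi.add_apply]; ring

theorem both_nonneg {x y : ℝ} (h1 : 0 ≤ x * y) (h2 : 0 ≤ x + y) : 0 ≤ x ∧ 0 ≤ y := by
  constructor
  · by_contra hcon
    push Not at hcon
    have h3 : 0 < y := by linarith
    nlinarith
  · by_contra hcon
    push Not at hcon
    have h3 : 0 < x := by linarith
    nlinarith

/-- **The cells.** -/
theorem exists_forms {g : Fin r → Fin p → ℚ} (hg : Pos g) :
    ∃ (n : ℕ) (h : Fin n → Fin p → ℚ) (T : ℕ), 1 ≤ T ∧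
      (∀ (o : Fin r → ℝ) (lam lam' : Fin p → ℝ), (Feas g lam).Nonempty →
        (∀ i, (0 ≤ pair (h i) lam → 0 ≤ pair (h i) lam') ∧
          (pair (h i) lam ≤ 0 → pair (h i) lam' ≤ 0)) →
        ∃ t ∈ Feas g lam, (∀ t' ∈ Feas g lam, cost o t ≤ cost o t') ∧
          ∃ t' ∈ Feas g lam', ∀ b, t b = 0 → t' b = 0) ∧
      (∀ (o : Fin r → ℝ) (lam lam' : Fin p → ℝ),
        (Feas g lam).Nonempty → (Feas g lam').Nonempty →
        (∀ i, 0 ≤ pair (h i) lam * pair (h i) lam') →
        val g o (lam + lam') = val g o lam + val g o lam') ∧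
      ∀ (o : Fin r → ℝ) (μ : Fin p → ℕ), (Feas g fun i => (μ i : ℝ)).Nonempty →
        ∃ e : Fin r → ℕ, (∀ i, (T : ℝ) * μ i = ∑ b, (e b : ℝ) * g b i) ∧
          ∑ b, (e b : ℝ) * o b = T * val g o fun i => (μ i : ℝ) := by
  classical
  choose h hh using fun S => exists_coord g S
  let ι := Finset (Fin r) × (Fin r ⊕ Fin p)
  let H : ι → Fin p → ℚ := fun x => match x.2 with
    | Sum.inl j => h x.1 j
    | Sum.inr k => fun k' => (if k' = k then 1 else 0) - ∑ j ∈ x.1, h x.1 j k' * g j k
  let e := Fintype.equivFin ι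
  -- the residual forms
  have hres : ∀ (S : Finset (Fin r)) (mu : Fin p → ℝ) (k : Fin p),
      pair (H (S, Sum.inr k)) mu = mu k - ∑ j ∈ S, pair (h S j) mu * g j k := by
    intro S mu k
    change ∑ k', mu k' * (((if k' = k then 1 else 0) - ∑ j ∈ S, h S j k' * g j k : ℚ) : ℝ) = _
    have h1 : ∀ k', mu k' * (((if k' = k then 1 else 0) - ∑ j ∈ S, h S j k' * g j k : ℚ) : ℝ) =
        (if k' = k then mu k' else 0) - ∑ j ∈ S, mu k' * h S j k' * g j k := by
      intro k'
      push_cast
      rw [mul_sub, Finset.mul_sum]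
      congr 1
      · split_ifs <;> simp
      · exact Finset.sum_congr rfl fun j _ => by ring
    rw [Finset.sum_congr rfl fun k' _ => h1 k', Finset.sum_sub_distrib]
    congr 1
    · rw [Finset.sum_ite_eq' Finset.univ k, if_pos (Finset.mem_univ _)]
    · rw [Finset.sum_comm]
      refine Finset.sum_congr rfl fun j _ => ?_
      unfold pair
      rw [Finset.sum_mul]
  -- feasible points from the coordinates
  have hpart : ∀ (S : Finset (Fin r)) (mu : Fin p → ℝ), (∀ j ∈ S, 0 ≤ pair (h S j) mu) →
      (∀ k, pair (H (S, Sum.inr k)) mu = 0) →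
      (fun j => if j ∈ S then pair (h S j) mu else 0) ∈ Feas g mu := by
    intro S mu h1 h2
    refine ⟨fun b => ?_, fun i => ?_⟩
    · by_cases hb : b ∈ S
      · simp only [if_pos hb]
        exact h1 b hb
      · simp only [if_neg hb, le_refl]
    · have h3 := h2 i
      rw [hres, sub_eq_zero] at h3
      rw [h3]
      simp only [ite_mul, zero_mul]
      rw [Finset.sum_ite_mem, Finset.univ_inter]
  -- the coordinates of a basic optimum
  have hbasic : ∀ (o : Fin r → ℝ) (lam : Fin p → ℝ), (Feas g lam).Nonempty →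
      ∃ t ∈ Feas g lam, (∀ t' ∈ Feas g lam, cost o t ≤ cost o t') ∧ ∃ S : Finset (Fin r),
        (∀ b, b ∉ S → t b = 0) ∧ (∀ j ∈ S, pair (h S j) lam = t j) ∧
        ∀ k, pair (H (S, Sum.inr k)) lam = 0 := by
    intro o lam hfe
    obtain ⟨t, ht, hopt, hind⟩ := exists_basic hg o hfe
    let S : Finset (Fin r) := Finset.univ.filter fun b => t b ≠ 0
    have hSmem : ∀ b, b ∉ S → t b = 0 := by
      intro b hb
      by_contra h0
      exact hb (Finset.mem_filter.2 ⟨Finset.mem_univ _, h0⟩)
    have hcoord : ∀ b ∈ S, ∀ j ∈ S, ∑ k, g b k * h S j k = if b = j then 1 else 0 := by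
      refine hh S fun s hs1 hs2 => ?_
      have h1 := hind (fun b => (s b : ℝ)) (fun b hb => by
        have h2 : b ∉ S := fun hb' => (Finset.mem_filter.1 hb').2 hb
        rw [hs1 b h2, Rat.cast_zero]) (fun i => by
        have h2 := hs2 i
        have h3 : ((∑ b, s b * g b i : ℚ) : ℝ) = 0 := by rw [h2, Rat.cast_zero]
        push_cast at h3
        exact h3)
      funext b
      have h2 := congrFun h1 b
      simp only [Pi.zero_apply] at h2 ⊢
      exact_mod_cast h2
    have hsum : ∀ j ∈ S, pair (h S j) lam = t j := by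
      intro j hj
      unfold pair
      have h1 : ∀ k, lam k * (h S j k : ℝ) = ∑ b, t b * (g b k * h S j k) := by
        intro k
        rw [ht.2 k, Finset.sum_mul]
        exact Finset.sum_congr rfl fun b _ => by ring
      rw [Finset.sum_congr rfl fun k _ => h1 k, Finset.sum_comm,
        Finset.sum_eq_single_of_mem j (Finset.mem_univ _)]
      · rw [← Finset.mul_sum]
        have h2 := hcoord j hj j hj
        rw [if_pos rfl] at h2
        have h3 : ((∑ k, g j k * h S j k : ℚ) : ℝ) = 1 := by rw [h2, Rat.cast_one]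
        push_cast at h3
        rw [h3, mul_one]
      · intro b _ hbj
        rw [← Finset.mul_sum]
        by_cases hb : b ∈ S
        · have h2 := hcoord b hb j hj
          rw [if_neg hbj] at h2
          have h3 : ((∑ k, g b k * h S j k : ℚ) : ℝ) = 0 := by rw [h2, Rat.cast_zero]
          push_cast at h3
          rw [h3, mul_zero]
        · rw [hSmem b hb, zero_mul]
    refine ⟨t, ht, hopt, S, hSmem, hsum, fun k => ?_⟩
    rw [hres, Finset.sum_congr rfl fun j hj => by rw [hsum j hj], ht.2 k, sub_eq_zero]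
    symm
    refine Finset.sum_subset (Finset.subset_univ S) fun b _ hb => ?_
    rw [hSmem b hb, zero_mul]
  -- the common denominator
  let T : ℕ := ∏ S : Finset (Fin r), ∏ j : Fin r, ∏ k : Fin p, (h S j k).den
  have hT : 1 ≤ T := Nat.one_le_iff_ne_zero.2 (Finset.prod_ne_zero_iff.2 fun S _ =>
    Finset.prod_ne_zero_iff.2 fun j _ => Finset.prod_ne_zero_iff.2 fun k _ => (h S j k).den_nz)
  have hTd : ∀ (S : Finset (Fin r)) (j : Fin r) (k : Fin p), ∃ z : ℤ,
      (T : ℝ) * h S j k = z := by
    intro S j k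
    have h1 : (h S j k).den ∣ T :=
      ((Finset.dvd_prod_of_mem _ (Finset.mem_univ k)).trans
        (Finset.dvd_prod_of_mem (fun j => ∏ k : Fin p, (h S j k).den)
          (Finset.mem_univ j))).trans
        (Finset.dvd_prod_of_mem (fun S => ∏ j : Fin r, ∏ k : Fin p, (h S j k).den)
          (Finset.mem_univ S))
    obtain ⟨q, hq⟩ := h1
    refine ⟨q * (h S j k).num, ?_⟩
    have h2 : (h S j k) * ((h S j k).den : ℚ) = (h S j k).num := Rat.mul_den_eq_num _
    have h3 : (T : ℚ) * h S j k = (q : ℚ) * (h S j k).num := by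
      rw [hq]
      push_cast
      rw [mul_comm ((h S j k).den : ℚ), mul_assoc, mul_comm ((h S j k).den : ℚ), h2]
    have h4 : ((T * h S j k : ℚ) : ℝ) = ((q * (h S j k).num : ℚ) : ℝ) := by rw [h3]
    push_cast at h4 ⊢
    exact h4
  refine ⟨Fintype.card ι, fun i => H (e.symm i), T, hT, fun o lam lam' hne hcell => ?_,
    fun o lam lam' hne hne' hcell => ?_, fun o μ hne => ?_⟩
  · have hcell' : ∀ x, (0 ≤ pair (H x) lam → 0 ≤ pair (H x) lam') ∧
        (pair (H x) lam ≤ 0 → pair (H x) lam' ≤ 0) := fun x => by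
      have h1 := hcell (e x)
      simp only [e.symm_apply_apply] at h1
      exact h1
    obtain ⟨t, ht, hopt, S, hSmem, hsum, hz⟩ := hbasic o lam hne
    refine ⟨t, ht, hopt, _, hpart S lam' (fun j hj => ?_) (fun k => ?_), fun b hb => ?_⟩
    · exact (hcell' (S, Sum.inl j)).1 (by
        change 0 ≤ pair (h S j) lam
        rw [hsum j hj]
        exact ht.1 j)
    · exact le_antisymm ((hcell' (S, Sum.inr k)).2 (hz k).le)
        ((hcell' (S, Sum.inr k)).1 (hz k).ge)
    · by_cases hbS : b ∈ S
      · simp only [if_pos hbS]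
        have h1 : pair (H (S, Sum.inl b)) lam = 0 := (hsum b hbS).trans hb
        exact le_antisymm ((hcell' (S, Sum.inl b)).2 h1.le) ((hcell' (S, Sum.inl b)).1 h1.ge)
      · simp only [if_neg hbS]
  · have hcell' : ∀ x, 0 ≤ pair (H x) lam * pair (H x) lam' := fun x => by
      have h1 := hcell (e x)
      simp only [e.symm_apply_apply] at h1
      exact h1
    obtain ⟨t0, ht0, hopt0⟩ := exists_opt hg o hne
    obtain ⟨t1, ht1, hopt1⟩ := exists_opt hg o hne'
    obtain ⟨t, ht, hopt, S, hSmem, hsum, hz⟩ := hbasic o _ ⟨_, feas_add ht0 ht1⟩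
    have hnn : ∀ j ∈ S, 0 ≤ pair (h S j) lam ∧ 0 ≤ pair (h S j) lam' := by
      intro j hj
      have h1 := hcell' (S, Sum.inl j)
      have h2 := hsum j hj
      rw [pair_add] at h2
      exact both_nonneg h1 (by rw [h2]; exact ht.1 j)
    have hres0 : ∀ k, pair (H (S, Sum.inr k)) lam = 0 ∧ pair (H (S, Sum.inr k)) lam' = 0 := by
      intro k
      have h1 := hcell' (S, Sum.inr k)
      have h2 : pair (H (S, Sum.inr k)) lam + pair (H (S, Sum.inr k)) lam' = 0 := by
        rw [← pair_add]
        exact hz k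
      have h3 := both_nonneg h1 h2.ge
      constructor <;> linarith [h3.1, h3.2]
    have hp0 := hpart S lam (fun j hj => (hnn j hj).1) fun k => (hres0 k).1
    have hp1 := hpart S lam' (fun j hj => (hnn j hj).2) fun k => (hres0 k).2
    have hspl : t = (fun j => if j ∈ S then pair (h S j) lam else 0) +
        fun j => if j ∈ S then pair (h S j) lam' else 0 := by
      funext j
      rw [Pi.add_apply]
      by_cases hj : j ∈ S
      · simp only [if_pos hj]
        rw [← pair_add, hsum j hj]
      · simp only [if_neg hj, add_zero]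
        exact hSmem j hj
    apply le_antisymm
    · refine (val_le hg (feas_add ht0 ht1)).trans ?_
      rw [cost_add, ← val_eq ht0 hopt0, ← val_eq ht1 hopt1]
    · rw [val_eq ht hopt, hspl, cost_add]
      exact add_le_add (val_le hg hp0) (val_le hg hp1)
  · obtain ⟨t, ht, hopt, S, hSmem, hsum, hz⟩ := hbasic o _ hne
    have hint : ∀ j, ∃ z : ℕ, (T : ℝ) * t j = z := by
      intro j
      by_cases hj : j ∈ S
      · rw [← hsum j hj]
        unfold pair
        choose z hz using hTd S j
        have h1 : (T : ℝ) * ∑ k, (μ k : ℝ) * h S j k = ((∑ k, (μ k : ℤ) * z k : ℤ) : ℝ) := by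
          rw [Finset.mul_sum]
          push_cast
          refine Finset.sum_congr rfl fun k _ => ?_
          rw [← hz k]
          ring
        have h2 : (0 : ℝ) ≤ ((∑ k, (μ k : ℤ) * z k : ℤ) : ℝ) := by
          rw [← h1]
          have h3 := hsum j hj
          unfold pair at h3
          rw [h3]
          exact mul_nonneg (Nat.cast_nonneg _) (ht.1 j)
        have h3 : (0 : ℤ) ≤ ∑ k, (μ k : ℤ) * z k := by exact_mod_cast h2
        refine ⟨(∑ k, (μ k : ℤ) * z k).toNat, ?_⟩
        rw [h1]
        have h4 : ((∑ k, (μ k : ℤ) * z k).toNat : ℤ) = ∑ k, (μ k : ℤ) * z k :=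
          Int.toNat_of_nonneg h3
        exact_mod_cast congrArg (fun w : ℤ => (w : ℝ)) h4.symm
      · exact ⟨0, by rw [hSmem j hj, mul_zero, Nat.cast_zero]⟩
    choose e he using hint
    refine ⟨e, fun i => ?_, ?_⟩
    · have h1 : (μ i : ℝ) = ∑ b, t b * g b i := ht.2 i
      rw [h1, Finset.mul_sum]
      exact Finset.sum_congr rfl fun b _ => by rw [← he b]; ring
    · rw [val_eq ht hopt]
      unfold cost
      rw [Finset.mul_sum]
      exact Finset.sum_congr rfl fun b _ => by rw [← he b]; ring

end Pool.Agent.Q57.GC
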