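import Mathlib

/-!
Linear programs `min ∑ b, t b * o b`, `t ≥ 0`, `∑ b, t b * g b = lam`, with a rational matrix `g`:
the minimum is a linear function of `lam` on the cells of a finite arrangement of rational
hyperplanes which does not depend on `o`.
-/

set_option autoImplicit false

namespace Pool.Agent.Q57.GC

variable {r p : ℕ}

/-- the feasible points -/
def Feas (g : Fin r → Fin p → ℚ) (lam : Fin p → ℝ) : Set (Fin r → ℝ) :=
  {t | (∀ b, 0 ≤ t b) ∧ ∀ i, lam i = ∑ b, t b * g b i}

theorem feas_add {g : Fin r → Fin p → ℚ} {lam lam' : Fin p → ℝ} {t t' : Fin r → ℝ}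
    (h : t ∈ Feas g lam) (h' : t' ∈ Feas g lam') : t + t' ∈ Feas g (lam + lam') := by
  refine ⟨fun b => add_nonneg (h.1 b) (h'.1 b), fun i => ?_⟩
  rw [Pi.add_apply, h.2 i, h'.2 i, ← Finset.sum_add_distrib]
  exact Finset.sum_congr rfl fun b _ => by rw [Pi.add_apply]; ring

theorem feas_smul {g : Fin r → Fin p → ℚ} {lam : Fin p → ℝ} {t : Fin r → ℝ} {c : ℝ}
    (hc : 0 ≤ c) (h : t ∈ Feas g lam) : c • t ∈ Feas g (c • lam) := by
  refine ⟨fun b => mul_nonneg hc (h.1 b), fun i => ?_⟩
  rw [Pi.smul_apply, h.2 i, smul_eq_mul, Finset.mul_sum]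
  exact Finset.sum_congr rfl fun b _ => by rw [Pi.smul_apply, smul_eq_mul]; ring

/-- the cost -/
def cost (o : Fin r → ℝ) (t : Fin r → ℝ) : ℝ := ∑ b, t b * o b

theorem cost_add (o t t' : Fin r → ℝ) : cost o (t + t') = cost o t + cost o t' := by
  unfold cost
  rw [← Finset.sum_add_distrib]
  exact Finset.sum_congr rfl fun b _ => by rw [Pi.add_apply]; ring

theorem cost_smul (o t : Fin r → ℝ) (c : ℝ) : cost o (c • t) = c * cost o t := by
  unfold cost
  rw [Finset.mul_sum]
  exact Finset.sum_congr rfl fun b _ => by rw [Pi.smul_apply, smul_eq_mul]; ring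

theorem continuous_cost (o : Fin r → ℝ) : Continuous (cost o) := by
  unfold cost
  fun_prop

/-- the vectors `g b` are nonnegative, with an entry at least one -/
def Pos (g : Fin r → Fin p → ℚ) : Prop := (∀ b i, 0 ≤ g b i) ∧ ∀ b, ∃ i, 1 ≤ g b i

theorem le_of_near {g : Fin r → Fin p → ℚ} (hg : Pos g) {lam : Fin p → ℝ} {θ : ℝ}
    {t : Fin r → ℝ} (ht : ∀ b, 0 ≤ t b) (h : ∀ i, |∑ b, t b * g b i - lam i| ≤ θ) (b : Fin r) :
    t b ≤ ∑ i, |lam i| + θ := by
  obtain ⟨i, hi⟩ := hg.2 b
  have h1 : t b * g b i ≤ ∑ b', t b' * g b' i :=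
    Finset.single_le_sum (f := fun b' => t b' * (g b' i : ℝ))
      (fun b' _ => mul_nonneg (ht b') (by exact_mod_cast hg.1 b' i)) (Finset.mem_univ b)
  have h2 : (1 : ℝ) ≤ g b i := by exact_mod_cast hi
  have h3 : t b ≤ t b * g b i := le_mul_of_one_le_right (ht b) h2
  have h4 := (abs_le.1 (h i)).2
  have h5 : lam i ≤ ∑ i, |lam i| := (le_abs_self _).trans
    (Finset.single_le_sum (f := fun i => |lam i|) (fun _ _ => abs_nonneg _) (Finset.mem_univ i))
  linarith

theorem exists_opt {g : Fin r → Fin p → ℚ} (hg : Pos g) (o : Fin r → ℝ) {lam : Fin p → ℝ}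
    (h : (Feas g lam).Nonempty) : ∃ t ∈ Feas g lam, ∀ t' ∈ Feas g lam, cost o t ≤ cost o t' := by
  have hcl : IsClosed (Feas g lam) := by
    have h1 : Feas g lam = (⋂ b, {t : Fin r → ℝ | 0 ≤ t b}) ∩
        ⋂ i, {t : Fin r → ℝ | lam i = ∑ b, t b * g b i} := by
      ext t
      simp only [Feas, Set.mem_ofPred_eq, Set.mem_inter_iff, Set.mem_iInter]
    rw [h1]
    refine (isClosed_iInter fun b => ?_).inter (isClosed_iInter fun i => ?_)
    · exact isClosed_le continuous_const (continuous_apply b)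
    · exact isClosed_eq continuous_const (by fun_prop)
  have hcp : IsCompact (Feas g lam) := by
    refine (isCompact_univ_pi fun _ : Fin r =>
      isCompact_Icc (a := (0 : ℝ)) (b := ∑ i, |lam i| + 0)).of_isClosed_subset hcl ?_
    intro t ht b _
    refine ⟨ht.1 b, le_of_near hg ht.1 (fun i => ?_) b⟩
    rw [← ht.2 i, sub_self, abs_zero]
  exact hcp.exists_isMinOn h (continuous_cost o).continuousOn

/-- the value of the linear program -/
noncomputable def val (g : Fin r → Fin p → ℚ) (o : Fin r → ℝ) (lam : Fin p → ℝ) : ℝ :=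
  sInf (cost o '' Feas g lam)

theorem val_eq {g : Fin r → Fin p → ℚ} {o : Fin r → ℝ} {lam : Fin p → ℝ} {t : Fin r → ℝ}
    (ht : t ∈ Feas g lam) (h : ∀ t' ∈ Feas g lam, cost o t ≤ cost o t') :
    val g o lam = cost o t := by
  apply le_antisymm
  · refine csInf_le ⟨cost o t, ?_⟩ ⟨t, ht, rfl⟩
    rintro _ ⟨t', ht', rfl⟩
    exact h t' ht'
  · refine le_csInf ⟨_, t, ht, rfl⟩ ?_
    rintro _ ⟨t', ht', rfl⟩
    exact h t' ht'

theorem val_le {g : Fin r → Fin p → ℚ} (hg : Pos g) {o : Fin r → ℝ} {lam : Fin p → ℝ}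
    {t : Fin r → ℝ} (ht : t ∈ Feas g lam) : val g o lam ≤ cost o t := by
  obtain ⟨t0, h1, h2⟩ := exists_opt hg o ⟨t, ht⟩
  rw [val_eq h1 h2]
  exact h2 t ht

theorem val_smul {g : Fin r → Fin p → ℚ} (hg : Pos g) (o : Fin r → ℝ) {lam : Fin p → ℝ}
    (hlam : (Feas g lam).Nonempty) {c : ℝ} (hc : 0 ≤ c) :
    val g o (c • lam) = c * val g o lam := by
  obtain ⟨t, ht, hopt⟩ := exists_opt hg o hlam
  rw [val_eq ht hopt, ← cost_smul]
  refine val_eq (feas_smul hc ht) fun t' ht' => ?_
  rcases hc.eq_or_lt with h0 | h0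
  · have h1 : t' = 0 := by
      funext b
      have h2 := le_of_near hg (lam := 0) (θ := 0) ht'.1 (fun i => by
        have h3 := ht'.2 i
        rw [← h0, zero_smul] at h3
        rw [← h3, sub_self, abs_zero]) b
      simp only [Pi.zero_apply, abs_zero, Finset.sum_const_zero, add_zero] at h2
      exact le_antisymm h2 (ht'.1 b)
    rw [← h0, h1, zero_smul]
  · have h1 := hopt (c⁻¹ • t') (by
      have h2 := feas_smul (inv_nonneg.2 hc) ht'
      rwa [smul_smul, inv_mul_cancel₀ h0.ne', one_smul] at h2)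
    rw [cost_smul] at h1 ⊢
    calc c * cost o t ≤ c * (c⁻¹ * cost o t') := mul_le_mul_of_nonneg_left h1 hc
      _ = cost o t' := by rw [← mul_assoc, mul_inv_cancel₀ h0.ne', one_mul]

/-- semicontinuity -/
theorem near_le {g : Fin r → Fin p → ℚ} (hg : Pos g) (o : Fin r → ℝ) (lam : Fin p → ℝ) {ε : ℝ}
    (hε : 0 < ε) : ∃ θ > 0, ∀ t : Fin r → ℝ, (∀ b, 0 ≤ t b) →
      (∀ i, |∑ b, t b * g b i - lam i| ≤ θ) → (Feas g lam).Nonempty ∧
        val g o lam - ε < cost o t := by
  let A : Set (Fin r → ℝ) := (Set.univ.pi fun _ => Set.Icc 0 (∑ i, |lam i| + 1)) ∩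
    {t | (Feas g lam).Nonempty → cost o t ≤ val g o lam - ε}
  have hA : IsCompact A := by
    refine (isCompact_univ_pi fun _ => isCompact_Icc).inter_right ?_
    by_cases h : (Feas g lam).Nonempty
    · simp only [h, true_imp_iff]
      exact isClosed_le (continuous_cost o) continuous_const
    · simp only [h, false_imp_iff, Set.ofPred_true]
      exact isClosed_univ
  let f : (Fin r → ℝ) → ℝ := fun t => ∑ i, |∑ b, t b * g b i - lam i|
  have hf : Continuous f := by
    unfold f
    fun_prop
  rcases A.eq_empty_or_nonempty with h0 | h0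
  · refine ⟨1, one_pos, fun t ht hn => ?_⟩
    have h1 : t ∉ A := by
      rw [h0]
      exact Set.notMem_empty t
    by_contra hcon
    refine h1 ⟨fun b _ => ⟨ht b, le_of_near hg ht hn b⟩, fun hne => ?_⟩
    by_contra hlt
    exact hcon ⟨hne, not_le.1 hlt⟩
  · obtain ⟨t0, ht0, hmin⟩ := hA.exists_isMinOn h0 hf.continuousOn
    have hpos : 0 < f t0 := by
      have h1 : 0 ≤ f t0 := Finset.sum_nonneg fun _ _ => abs_nonneg _
      rcases h1.eq_or_lt with h2 | h2
      · exfalso
        have h3 : ∀ i, |∑ b, t0 b * g b i - lam i| = 0 := fun i =>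
          (Finset.sum_eq_zero_iff_of_nonneg fun _ _ => abs_nonneg _).1 h2.symm i
            (Finset.mem_univ i)
        have h4 : t0 ∈ Feas g lam := ⟨fun b => (ht0.1 b trivial).1, fun i => by
          have h5 := abs_eq_zero.1 (h3 i)
          linarith⟩
        have h5 := ht0.2 ⟨t0, h4⟩
        have h6 := val_le hg (o := o) h4
        linarith
      · exact h2
    refine ⟨min 1 (f t0 / (p + 1)), lt_min one_pos (by positivity), fun t ht hn => ?_⟩
    have h1 : t ∉ A := by
      intro hA'
      have h2 : f t0 ≤ f t := hmin hA'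
      have h3 : f t ≤ ∑ _i : Fin p, f t0 / (p + 1) := Finset.sum_le_sum fun i _ =>
        (hn i).trans (min_le_right _ _)
      rw [Finset.sum_const, Finset.card_univ, Fintype.card_fin, nsmul_eq_mul] at h3
      have h4 : (p : ℝ) * (f t0 / (p + 1)) < f t0 := by
        rw [mul_div_assoc', div_lt_iff₀ (by positivity)]
        nlinarith
      linarith
    by_contra hcon
    refine h1 ⟨fun b _ => ⟨ht b, (le_of_near hg ht (fun i => (hn i).trans (min_le_left _ _)) b)⟩,
      fun hne => ?_⟩
    by_contra hlt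
    exact hcon ⟨hne, not_le.1 hlt⟩

/-- the optimum is attained at a basic solution -/
theorem exists_basic {g : Fin r → Fin p → ℚ} (hg : Pos g) (o : Fin r → ℝ) {lam : Fin p → ℝ}
    (h : (Feas g lam).Nonempty) : ∃ t ∈ Feas g lam, (∀ t' ∈ Feas g lam, cost o t ≤ cost o t') ∧
      ∀ s : Fin r → ℝ, (∀ b, t b = 0 → s b = 0) → (∀ i, ∑ b, s b * g b i = 0) → s = 0 := by
  classical
  obtain ⟨t0, ht0, hopt0⟩ := exists_opt hg o h
  -- minimal support
  have key : ∀ n : ℕ, ∀ t ∈ Feas g lam, (∀ t' ∈ Feas g lam, cost o t ≤ cost o t') →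
      (Finset.univ.filter fun b => t b ≠ 0).card = n →
      ∃ t ∈ Feas g lam, (∀ t' ∈ Feas g lam, cost o t ≤ cost o t') ∧
        ∀ s : Fin r → ℝ, (∀ b, t b = 0 → s b = 0) → (∀ i, ∑ b, s b * g b i = 0) → s = 0 := by
    intro n
    induction n using Nat.strong_induction_on with
    | _ n ih =>
      intro t ht hopt hcard
      by_cases hall : ∀ s : Fin r → ℝ, (∀ b, t b = 0 → s b = 0) →
          (∀ i, ∑ b, s b * g b i = 0) → s = 0
      · exact ⟨t, ht, hopt, hall⟩
      push Not at hall
      obtain ⟨s0, hs1, hs2, hs3⟩ := hall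
      -- a direction with a negative entry
      obtain ⟨s, hs1, hs2, b0, hb0⟩ : ∃ s : Fin r → ℝ, (∀ b, t b = 0 → s b = 0) ∧
          (∀ i, ∑ b, s b * g b i = 0) ∧ ∃ b, s b < 0 := by
        by_cases hneg : ∃ b, s0 b < 0
        · exact ⟨s0, hs1, hs2, hneg⟩
        · push Not at hneg
          refine ⟨-s0, fun b hb => by rw [Pi.neg_apply, hs1 b hb, neg_zero], fun i => ?_, ?_⟩
          · have h1 := hs2 i
            have h2 : ∑ b, (-s0) b * (g b i : ℝ) = - ∑ b, s0 b * g b i := by
              rw [← Finset.sum_neg_distrib]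
              exact Finset.sum_congr rfl fun b _ => by rw [Pi.neg_apply]; ring
            rw [h2, h1, neg_zero]
          · by_contra hcon
            push Not at hcon
            apply hs3
            funext b
            have h1 := hcon b
            rw [Pi.neg_apply] at h1
            show s0 b = (0 : ℝ)
            exact le_antisymm (by linarith) (hneg b)
      -- feasibility of small moves
      have hmove : ∀ c : ℝ, (∀ b, 0 ≤ t b + c * s b) → t + c • s ∈ Feas g lam := by
        intro c hc
        refine ⟨fun b => hc b, fun i => ?_⟩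
        have h1 : ∑ b, (t + c • s) b * (g b i : ℝ) = ∑ b, t b * g b i + c * ∑ b, s b * g b i := by
          rw [Finset.mul_sum, ← Finset.sum_add_distrib]
          exact Finset.sum_congr rfl fun b _ => by
            rw [Pi.add_apply, Pi.smul_apply, smul_eq_mul]; ring
        rw [h1, hs2 i, mul_zero, add_zero]
        exact ht.2 i
      -- the cost is constant in this direction
      obtain ⟨ε, hε, hεb⟩ : ∃ ε > 0, ∀ b, t b ≠ 0 → ε * |s b| ≤ t b := by
        have h1 : ∀ b, ∃ ε > 0, t b ≠ 0 → ε * |s b| ≤ t b := by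
          intro b
          by_cases htb : t b = 0
          · exact ⟨1, one_pos, fun h => absurd htb h⟩
          · have h2 : 0 < t b := lt_of_le_of_ne (ht.1 b) (Ne.symm htb)
            refine ⟨t b / (|s b| + 1), by positivity, fun _ => ?_⟩
            rw [div_mul_eq_mul_div, div_le_iff₀ (by positivity)]
            nlinarith [abs_nonneg (s b)]
        choose ε hε1 hε2 using h1
        rcases isEmpty_or_nonempty (Fin r) with he | he
        · exact (he.elim b0)
        obtain ⟨b1, -, hb1⟩ := Finset.exists_min_image Finset.univ ε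
          ⟨Classical.arbitrary _, Finset.mem_univ _⟩
        exact ⟨ε b1, hε1 b1, fun b hb => le_trans (mul_le_mul_of_nonneg_right
          (hb1 b (Finset.mem_univ b)) (abs_nonneg _)) (hε2 b hb)⟩
      have hcst : cost o s = 0 := by
        have h1 : ∀ c : ℝ, |c| ≤ ε → ∀ b, 0 ≤ t b + c * s b := by
          intro c hc b
          by_cases htb : t b = 0
          · rw [htb, hs1 b htb, mul_zero, add_zero]
          · have h2 := hεb b htb
            have h3 : |c * s b| ≤ ε * |s b| := by
              rw [abs_mul]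
              exact mul_le_mul_of_nonneg_right hc (abs_nonneg _)
            have h4 := neg_abs_le (c * s b)
            linarith
        have h2 := hopt _ (hmove ε (h1 ε (by rw [abs_of_pos hε])))
        have h3 := hopt _ (hmove (-ε) (h1 (-ε) (by rw [abs_neg, abs_of_pos hε])))
        rw [cost_add, cost_smul] at h2 h3
        nlinarith
      -- move to the boundary
      obtain ⟨b1, hb1m, hb1⟩ := Finset.exists_min_image
        (Finset.univ.filter fun b => s b < 0) (fun b => t b / (- s b))
        ⟨b0, by rw [Finset.mem_filter]; exact ⟨Finset.mem_univ _, hb0⟩⟩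
      rw [Finset.mem_filter] at hb1m
      have hsb1 : s b1 < 0 := hb1m.2
      have hc0 : 0 ≤ t b1 / (- s b1) := div_nonneg (ht.1 b1) (by linarith)
      have hnn : ∀ b, 0 ≤ t b + t b1 / (- s b1) * s b := by
        intro b
        by_cases hsb : s b < 0
        · have h1 := hb1 b (by rw [Finset.mem_filter]; exact ⟨Finset.mem_univ _, hsb⟩)
          rw [le_div_iff₀ (by linarith)] at h1
          linarith
        · push Not at hsb
          exact add_nonneg (ht.1 b) (mul_nonneg hc0 hsb)
      have hz : t b1 + t b1 / (- s b1) * s b1 = 0 := by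
        have h1 : s b1 ≠ 0 := hsb1.ne
        rw [div_neg, neg_mul, div_mul_cancel₀ _ h1]
        ring
      refine ih ((Finset.univ.filter fun b => (t + (t b1 / (- s b1)) • s) b ≠ 0).card) ?_
        (t + (t b1 / (- s b1)) • s) (hmove _ hnn) (fun t' ht' => ?_) rfl
      · rw [← hcard]
        refine Finset.card_lt_card ⟨?_, fun hsub => ?_⟩
        · intro b hb
          rw [Finset.mem_filter] at hb ⊢
          refine ⟨hb.1, fun h0 => hb.2 ?_⟩
          rw [Pi.add_apply, Pi.smul_apply, smul_eq_mul, h0, hs1 b h0, mul_zero, add_zero]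
        · have h1 : b1 ∈ Finset.univ.filter fun b => t b ≠ 0 := by
            rw [Finset.mem_filter]
            refine ⟨Finset.mem_univ _, fun h0 => ?_⟩
            rw [hs1 b1 h0] at hsb1
            exact lt_irrefl _ hsb1
          have h2 := hsub h1
          rw [Finset.mem_filter] at h2
          exact h2.2 hz
      · rw [cost_add, cost_smul, hcst, mul_zero, add_zero]
        exact hopt t' ht'
  exact key _ t0 ht0 hopt0 rfl

end Pool.Agent.Q57.GC
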