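import Pool.Agent.Q57.GC.Order
import Pool.Agent.Q57.GG.NefC

/-!
The chambers of the combinations of log canonical divisors.
-/

set_option autoImplicit false
set_option linter.overlappingInstances false
set_option linter.unusedSectionVars false
set_option maxHeartbeats 1000000

open FF MvPolynomial Pool.Agent.W602.GT Pool.Agent.Q57.TP Pool.Agent.Q57.GM Pool.Agent.Q57.FG
open Pool.Agent.Q57.GG

namespace Pool.Agent.Q57.GC

variable {p N : ℕ} {K : Type} [Field K] [Algebra ℂ K] {δ : Fin p → Place ℂ K → ℚ}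

/-- common vector fields for the sections which do not vanish at a place -/
theorem nv_common {w : (Fin N → Derivation ℂ K K) → K} {u : K} (hu : u ≠ 0)
    {D0 : Fin N → Derivation ℂ K K}
    (hpl : ∀ (m : ℕ) (η : (Fin N → Derivation ℂ K K) → K), IsPluri m η →
      ∀ D, η D * u ^ m = w D ^ m * η D0)
    {N0 : ℕ} {g : Fin N0 → Fin p →₀ ℕ} {ω : Fin N0 → (Fin N → Derivation ℂ K K) → K}
    (hg : ∀ b, g b ≠ 0 ∧ MSec N δ (g b) (ω b)) {P : Place ℂ K} (hP : Divisorial N P) :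
    ∃ D : Fin N → Derivation ℂ K K, (∀ c, DerReg P (D c)) ∧
      ∀ b, NV N δ (g b) (ω b) P → ω b D ≠ 0 ∧
        (P.ord (ω b D) : ℚ) ≤ - ∑ i, (g b i : ℚ) * δ i P := by
  classical
  by_cases hall : ∀ b, ¬ NV N δ (g b) (ω b) P
  · refine ⟨0, fun c => ?_, fun b hb => absurd hb (hall b)⟩
    intro z _
    exact Or.inl rfl
  push Not at hall
  obtain ⟨b0, D, hD, hne, hle⟩ := hall
  refine ⟨D, hD, fun b hb => ?_⟩
  obtain ⟨D', hD', hne', hle'⟩ := hb
  have hm0 := ne_zero_sum (hg b0).1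
  have hm := ne_zero_sum (hg b).1
  have key : ∀ (b : Fin N0) (D : Fin N → Derivation ℂ K K), ω b D ≠ 0 →
      w D ≠ 0 ∧ ω b D0 ≠ 0 := by
    intro b D hb
    have h1 := hpl _ (ω b) (hg b).2.1 D
    have h2 : ω b D * u ^ (∑ i, g b i) ≠ 0 := mul_ne_zero hb (pow_ne_zero _ hu)
    rw [h1] at h2
    refine ⟨fun h3 => h2 ?_, fun h3 => h2 ?_⟩
    · have h4 := ne_zero_sum (hg b).1
      rw [h3, zero_pow (by omega), zero_mul]
    · rw [h3, mul_zero]
  have key2 : ∀ (b : Fin N0) (D : Fin N → Derivation ℂ K K), w D ≠ 0 → ω b D0 ≠ 0 →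
      ω b D ≠ 0 ∧ P.ord (ω b D) = ((∑ i, g b i : ℕ) : ℤ) * (P.ord (w D) - P.ord u) +
        P.ord (ω b D0) := by
    intro b D hwD h0
    have h1 := hpl _ (ω b) (hg b).2.1 D
    have h2 : ω b D ≠ 0 := by
      intro h3
      rw [h3, zero_mul] at h1
      exact mul_ne_zero (pow_ne_zero _ hwD) h0 h1.symm
    refine ⟨h2, ?_⟩
    have h3 := congrArg P.ord h1
    rw [P.ord_mul h2 (pow_ne_zero _ hu), P.ord_mul (pow_ne_zero _ hwD) h0, P.ord_pow,
      P.ord_pow] at h3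
    linarith
  obtain ⟨hwD, hb0D0⟩ := key b0 D hne
  obtain ⟨hwD', hbD0⟩ := key b D' hne'
  obtain ⟨h1, h2⟩ := key2 b D hwD hbD0
  obtain ⟨-, h2'⟩ := key2 b D' hwD' hbD0
  obtain ⟨-, h3⟩ := key2 b0 D hwD hb0D0
  obtain ⟨h4, h3'⟩ := key2 b0 D' hwD' hb0D0
  refine ⟨h1, ?_⟩
  have h5 := ((hg b0).2.2 P hP D' hD').resolve_left h4
  have h6 : P.ord (ω b0 D) ≤ P.ord (ω b0 D') := by
    have h7 : (P.ord (ω b0 D) : ℚ) ≤ (P.ord (ω b0 D') : ℚ) := hle.trans h5
    exact_mod_cast h7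
  have h7 : P.ord (w D) ≤ P.ord (w D') := by
    rw [h3, h3'] at h6
    have h8 : (1 : ℤ) ≤ ((∑ i, g b0 i : ℕ) : ℤ) := by exact_mod_cast hm0
    have h9 : ((∑ i, g b0 i : ℕ) : ℤ) * P.ord (w D) ≤ ((∑ i, g b0 i : ℕ) : ℤ) *
      P.ord (w D') := by linarith
    exact le_of_mul_le_mul_left h9 (by linarith)
  have h8 : P.ord (ω b D) ≤ P.ord (ω b D') := by
    rw [h2, h2']
    have h9 : (0 : ℤ) ≤ ((∑ i, g b i : ℕ) : ℤ) := by positivity
    have h10 := mul_le_mul_of_nonneg_left h7 h9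
    linarith
  have h9 : (P.ord (ω b D) : ℚ) ≤ (P.ord (ω b D') : ℚ) := by exact_mod_cast h8
  exact h9.trans hle'

/-- products of sections which do not vanish -/
theorem nv_prod {w : (Fin N → Derivation ℂ K K) → K} {u : K} (hu : u ≠ 0)
    {D0 : Fin N → Derivation ℂ K K}
    (hpl : ∀ (m : ℕ) (η : (Fin N → Derivation ℂ K K) → K), IsPluri m η →
      ∀ D, η D * u ^ m = w D ^ m * η D0)
    {N0 : ℕ} {g : Fin N0 → Fin p →₀ ℕ} {ω : Fin N0 → (Fin N → Derivation ℂ K K) → K}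
    (hg : ∀ b, g b ≠ 0 ∧ MSec N δ (g b) (ω b)) {P : Place ℂ K} (hP : Divisorial N P)
    {e : Fin N0 → ℕ} (he : ∀ b, e b ≠ 0 → NV N δ (g b) (ω b) P) :
    NV N δ (∑ b, e b • g b) (fun D => ∏ b, ω b D ^ e b) P := by
  classical
  obtain ⟨D, hD, hDb⟩ := nv_common hu hpl hg hP
  refine ⟨D, hD, ?_, ?_⟩
  · refine Finset.prod_ne_zero_iff.2 fun b _ => ?_
    by_cases hb : e b = 0
    · rw [hb, pow_zero]
      exact one_ne_zero
    · exact pow_ne_zero _ (hDb b (he b hb)).1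
  · have hord : ∀ s : Finset (Fin N0), (∏ b ∈ s, ω b D ^ e b) ≠ 0 ∧
        P.ord (∏ b ∈ s, ω b D ^ e b) = ∑ b ∈ s, (e b : ℤ) * P.ord (ω b D) := by
      intro s
      induction s using Finset.induction_on with
      | empty => exact ⟨by simp, by simp [P.ord_one]⟩
      | insert b s hbs ih =>
        rw [Finset.prod_insert hbs, Finset.sum_insert hbs]
        by_cases hb : e b = 0
        · rw [hb, pow_zero, one_mul, Nat.cast_zero, zero_mul, zero_add]
          exact ih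
        · have h1 := (hDb b (he b hb)).1
          refine ⟨mul_ne_zero (pow_ne_zero _ h1) ih.1, ?_⟩
          rw [P.ord_mul (pow_ne_zero _ h1) ih.1, P.ord_pow, ih.2]
    rw [(hord Finset.univ).2, Int.cast_sum]
    simp only [Int.cast_mul, Int.cast_natCast]
    have h1 : ∑ b, (e b : ℚ) * P.ord (ω b D) ≤ ∑ b, (e b : ℚ) * - ∑ i, (g b i : ℚ) * δ i P := by
      refine Finset.sum_le_sum fun b _ => ?_
      by_cases hb : e b = 0
      · rw [hb, Nat.cast_zero, zero_mul, zero_mul]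
      · exact mul_le_mul_of_nonneg_left (hDb b (he b hb)).2 (by positivity)
    have h2 : ∑ b, (e b : ℚ) * - ∑ i, (g b i : ℚ) * δ i P =
        - ∑ i, (((∑ b, e b • g b) i : ℕ) : ℚ) * δ i P := by
      have h3 : ∀ i, (((∑ b, e b • g b) i : ℕ) : ℚ) = ∑ b, (e b : ℚ) * g b i := by
        intro i
        have h0 : (∑ b, e b • g b) i = ∑ b, e b * g b i := by
          rw [Finsupp.finsetSum_apply]
          exact Finset.sum_congr rfl fun b _ => by rw [Finsupp.smul_apply, smul_eq_mul]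
        rw [h0, Nat.cast_sum]
        exact Finset.sum_congr rfl fun b _ => by rw [Nat.cast_mul]
      simp only [h3, Finset.sum_mul]
      rw [Finset.sum_comm, ← Finset.sum_neg_distrib]
      refine Finset.sum_congr rfl fun b _ => ?_
      rw [mul_neg, Finset.mul_sum]
      congr 1
      exact Finset.sum_congr rfl fun i _ => by ring
    rw [h2] at h1
    exact h1

/-- `lam'` lies in the closure of the cell of `lam` -/
def Cell {n : ℕ} (h : Fin n → Fin p → ℚ) (lam lam' : Fin p → ℝ) : Prop :=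
  ∀ i, (0 ≤ ∑ k, lam k * h i k → 0 ≤ ∑ k, lam' k * h i k) ∧
    (∑ k, lam k * h i k ≤ 0 → ∑ k, lam' k * h i k ≤ 0)

/-- **The chambers.** -/
theorem main_gc {w : (Fin N → Derivation ℂ K K) → K} {u : K} (hu : u ≠ 0)
    {D0 : Fin N → Derivation ℂ K K}
    (hpl : ∀ (m : ℕ) (η : (Fin N → Derivation ℂ K K) → K), IsPluri m η →
      ∀ D, η D * u ^ m = w D ^ m * η D0)
    {N0 : ℕ} {g : Fin N0 → Fin p →₀ ℕ} {ω : Fin N0 → (Fin N → Derivation ℂ K K) → K}
    (hg : ∀ b, g b ≠ 0 ∧ MSec N δ (g b) (ω b))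
    (hD0 : ∀ b, ω b D0 ≠ 0) (hdv : ∃ P : Place ℂ K, Divisorial N P)
    (hord : ∀ (P : Place ℂ K) (S : Finset K) (D : Fin N → Derivation ℂ K K), ∃ C1 : ℕ,
        ∀ (μ : Fin p →₀ ℕ) (j : ℕ) (η : (Fin N → Derivation ℂ K K) → K), μ ≠ 0 →
          ASec N δ S μ j η → η D = 0 ∨ ((∀ b, ω b D ≠ 0) ∧
            ∃ e : Fin N0 → ℕ,
              (∀ i, |∑ b, (e b : ℤ) * g b i - μ i| ≤ C1 * (j + 1)) ∧
              ∑ b, (e b : ℤ) * P.ord (ω b D) ≤ P.ord (η D) + C1 * (j + 1))) :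
    ∃ (T n : ℕ) (h : Fin n → Fin p → ℚ), 1 ≤ T ∧
      (∀ lam lam' : Fin p → ℝ, (∀ i, 0 ≤ lam i) → PsefR N δ lam → Cell h lam lam' →
        (∀ i, 0 ≤ lam' i) ∧ PsefR N δ lam' ∧ (NefR N δ lam → NefR N δ lam')) ∧
      (∀ μ : Fin p →₀ ℕ, NefR N δ (fun i => (μ i : ℝ)) → ∀ P : Place ℂ K, Divisorial N P →
        ∃ η, MSec N δ (T • μ) η ∧ NV N δ (T • μ) η P) ∧
      ∀ (P : Place ℂ K) (D : Fin N → Derivation ℂ K K),
        (∃ (S : Finset K) (μ : Fin p →₀ ℕ) (j : ℕ) (η : (Fin N → Derivation ℂ K K) → K), μ ≠ 0 ∧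
          ASec N δ S μ j η ∧ η D ≠ 0) →
        ∃ σ : (Fin p → ℝ) → ℝ,
          (∀ lam, (∀ i, 0 ≤ lam i) → PsefR N δ lam → AsOrd N δ P D lam (σ lam)) ∧
          (∀ lam (c : ℝ), (∀ i, 0 ≤ lam i) → PsefR N δ lam → 0 ≤ c →
            σ (c • lam) = c * σ lam) ∧
          (∀ lam lam1 lam2, (∀ i, 0 ≤ lam i) → PsefR N δ lam → Cell h lam lam1 →
            Cell h lam lam2 → σ (lam1 + lam2) = σ lam1 + σ lam2) ∧
          ∀ μ : Fin p →₀ ℕ, PsefR N δ (fun i => (μ i : ℝ)) →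
            ∃ η, MSec N δ (T • μ) η ∧ η D ≠ 0 ∧
              (P.ord (η D) : ℝ) = T * σ fun i => (μ i : ℝ) := by
  classical
  have hpos : Pos (mat g) := mat_pos fun b => (hg b).1
  have hdet : ∀ (m : ℕ) (η : (Fin N → Derivation ℂ K K) → K), IsPluri m η → η ≠ 0 →
      η D0 ≠ 0 := by
    intro m η hη h0 h5
    apply h0
    funext D
    have h6 := hpl m η hη D
    rw [h5, mul_zero] at h6
    exact (mul_eq_zero.1 h6).resolve_right (pow_ne_zero _ hu)
  obtain ⟨P0, -⟩ := hdv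
  have hpsef : ∀ lam : Fin p → ℝ, (∀ i, 0 ≤ lam i) →
      (PsefR N δ lam ↔ (Feas (mat g) lam).Nonempty) := by
    intro lam hlam
    rw [psefR_iff hg (P := P0) hD0 hdet (fun S => by
      obtain ⟨C1, hC1⟩ := hord P0 S D0
      refine ⟨C1, fun μ j η hμ hη => (hC1 μ j η hμ hη).imp id fun h => ?_⟩
      obtain ⟨-, e, he, -⟩ := h
      exact ⟨e, he⟩) lam hlam]
    exact exists_congr fun t => mem_feas.symm
  have hfe0 : ∀ lam : Fin p → ℝ, (Feas (mat g) lam).Nonempty → ∀ i, 0 ≤ lam i := by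
    rintro lam ⟨t, ht⟩ i
    rw [(mem_feas.1 ht).2 i]
    exact Finset.sum_nonneg fun b _ => mul_nonneg (ht.1 b) (Nat.cast_nonneg _)
  obtain ⟨n, h, T, hT, hcl, hadd, hint⟩ := exists_forms hpos
  have hmono : ∀ (e : Fin N0 → ℕ) (μ : Fin p →₀ ℕ),
      (∀ i, (T : ℝ) * (μ i : ℝ) = ∑ b, (e b : ℝ) * ((mat g b i : ℚ) : ℝ)) →
        ∑ b, e b • g b = T • μ := by
    intro e μ he
    ext i
    have h1 := he i
    simp only [mat_cast] at h1
    rw [Finsupp.finsetSum_apply, Finsupp.smul_apply, smul_eq_mul]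
    have h2 : ∀ b, (e b • g b) i = e b * g b i := fun b => by
      rw [Finsupp.smul_apply, smul_eq_mul]
    rw [Finset.sum_congr rfl fun b _ => h2 b]
    have h3 : ((∑ b, e b * g b i : ℕ) : ℝ) = ((T * μ i : ℕ) : ℝ) := by
      push_cast
      exact h1.symm
    exact_mod_cast h3
  refine ⟨T, n, h, hT, fun lam lam' hlam hps hcell => ?_, fun μ hnef P hP => ?_,
    fun P D hnd => ?_⟩
  · have hfe := (hpsef lam hlam).1 hps
    obtain ⟨-, -, -, t', ht', -⟩ := hcl 0 lam lam' hfe hcell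
    have hlam' := hfe0 lam' ⟨t', ht'⟩
    refine ⟨hlam', (hpsef lam' hlam').2 ⟨t', ht'⟩, fun hn => nefR_of hu hpl hg lam' fun P hP => ?_⟩
    obtain ⟨t0, ht0, hlt0, hnv0'⟩ := semi_of_nefR hu hpl hg hord lam hlam hn P hP
    have hnv0 : ∀ b, t0 b ≠ 0 → NV N δ (g b) (ω b) P := hnv0'
    obtain ⟨o, ho⟩ : ∃ o : Fin N0 → ℝ, ∀ b, o b = if NV N δ (g b) (ω b) P then 0 else 1 :=
      ⟨_, fun _ => rfl⟩
    obtain ⟨t, ht, hopt, t'', ht'', hz⟩ := hcl o lam lam' hfe hcell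
    have h0 : cost o t ≤ 0 := by
      refine (hopt t0 (mem_feas.2 ⟨ht0, hlt0⟩)).trans (le_of_eq ?_)
      refine Finset.sum_eq_zero fun b _ => ?_
      by_cases hb : t0 b = 0
      · rw [hb, zero_mul]
      · rw [ho, if_pos (hnv0 b hb), mul_zero]
    have ho0 : ∀ b, 0 ≤ o b := by
      intro b
      rw [ho]
      split_ifs
      · exact le_rfl
      · exact zero_le_one
    have hb0 : ∀ b, ¬ NV N δ (g b) (ω b) P → t b = 0 := by
      intro b hb
      have h1 : t b * o b ≤ cost o t := Finset.single_le_sum (f := fun b => t b * o b)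
        (fun b _ => mul_nonneg (ht.1 b) (ho0 b)) (Finset.mem_univ b)
      rw [ho, if_neg hb, mul_one] at h1
      exact le_antisymm (h1.trans h0) (ht.1 b)
    refine ⟨t'', ht''.1, (mem_feas.1 ht'').2, fun b hb => ?_⟩
    by_contra hcon
    exact hb (hz b (hb0 b hcon))
  · obtain ⟨t0, ht0, hlt0, hnv0'⟩ := semi_of_nefR hu hpl hg hord (fun i => (μ i : ℝ))
      (fun i => Nat.cast_nonneg _) hnef P hP
    have hnv0 : ∀ b, t0 b ≠ 0 → NV N δ (g b) (ω b) P := hnv0'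
    obtain ⟨o, ho⟩ : ∃ o : Fin N0 → ℝ, ∀ b, o b = if NV N δ (g b) (ω b) P then 0 else 1 :=
      ⟨_, fun _ => rfl⟩
    have hfe : t0 ∈ Feas (mat g) (fun i => (μ i : ℝ)) := mem_feas.2 ⟨ht0, hlt0⟩
    obtain ⟨e, he1, he2⟩ := hint o (fun i => μ i) ⟨_, hfe⟩
    have ho0 : ∀ b, 0 ≤ o b := by
      intro b
      rw [ho]
      split_ifs
      · exact le_rfl
      · exact zero_le_one
    have hval : val (mat g) o (fun i => (μ i : ℝ)) ≤ 0 := by
      refine (val_le hpos hfe).trans (le_of_eq ?_)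
      refine Finset.sum_eq_zero fun b _ => ?_
      by_cases hb : t0 b = 0
      · rw [hb, zero_mul]
      · rw [ho, if_pos (hnv0 b hb), mul_zero]
    have hsum : ∑ b, (e b : ℝ) * o b ≤ 0 := by
      rw [he2]
      exact mul_nonpos_of_nonneg_of_nonpos (Nat.cast_nonneg _) hval
    have heNV : ∀ b, e b ≠ 0 → NV N δ (g b) (ω b) P := by
      intro b hb
      by_contra hcon
      have h1 : (e b : ℝ) * o b ≤ ∑ b, (e b : ℝ) * o b :=
        Finset.single_le_sum (f := fun b => (e b : ℝ) * o b)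
          (fun b _ => mul_nonneg (Nat.cast_nonneg _) (ho0 b)) (Finset.mem_univ b)
      rw [ho, if_neg hcon, mul_one] at h1
      have h2 : (1 : ℝ) ≤ e b := by exact_mod_cast Nat.one_le_iff_ne_zero.2 hb
      linarith
    have h1 := hmono e μ he1
    have h2 := nv_prod hu hpl hg hP heNV
    have h3 := msec_prod (fun b => (hg b).2) e
    rw [h1] at h2 h3
    exact ⟨_, h3, h2⟩
  · obtain ⟨S, μ, j, η, hμ, hη, h0⟩ := hnd
    have hD : ∀ b, ω b D ≠ 0 := by
      obtain ⟨C1, hC1⟩ := hord P S D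
      exact ((hC1 μ j η hμ hη).resolve_left h0).1
    refine ⟨val (mat g) (fun b => (P.ord (ω b D) : ℝ)), fun lam hlam hps => ?_,
      fun lam c hlam hps hc => ?_, fun lam lam1 lam2 hlam hps h1 h2 => ?_, fun μ hps => ?_⟩
    · refine asOrd hg hD (fun S => ?_) ((hpsef lam hlam).1 hps)
      obtain ⟨C1, hC1⟩ := hord P S D
      exact ⟨C1, fun μ j η hμ hη => (hC1 μ j η hμ hη).imp id fun h => h.2⟩
    · exact val_smul hpos _ ((hpsef lam hlam).1 hps) hc
    · have hfe := (hpsef lam hlam).1 hps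
      obtain ⟨-, -, -, t1, ht1, -⟩ := hcl 0 lam lam1 hfe h1
      obtain ⟨-, -, -, t2, ht2, -⟩ := hcl 0 lam lam2 hfe h2
      refine hadd _ lam1 lam2 ⟨t1, ht1⟩ ⟨t2, ht2⟩ fun i => ?_
      rcases le_total 0 (pair (h i) lam) with h3 | h3
      · exact mul_nonneg ((h1 i).1 h3) ((h2 i).1 h3)
      · exact mul_nonneg_of_nonpos_of_nonpos ((h1 i).2 h3) ((h2 i).2 h3)
    · obtain ⟨e, he1, he2⟩ := hint (fun b => (P.ord (ω b D) : ℝ)) (fun i => μ i)
        ((hpsef _ fun i => Nat.cast_nonneg _).1 hps)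
      have h1 := hmono e μ he1
      have h3 := msec_prod (fun b => (hg b).2) e
      rw [h1] at h3
      refine ⟨_, h3, Finset.prod_ne_zero_iff.2 fun b _ => pow_ne_zero _ (hD b), ?_⟩
      rw [ord_prod P hD, ← he2]
      push_cast
      rfl

end Pool.Agent.Q57.GC
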