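import Pool.Agent.Q57.GC.Forms
import Pool.Agent.Q57.GG.Psef

/-!
Asymptotic orders of vanishing of combinations of log canonical divisors.
-/

set_option autoImplicit false
set_option linter.overlappingInstances false
set_option linter.unusedSectionVars false
set_option maxHeartbeats 1000000

open FF MvPolynomial Pool.Agent.W602.GT Pool.Agent.Q57.TP Pool.Agent.Q57.GM Pool.Agent.Q57.FG
open Pool.Agent.Q57.GG

namespace Pool.Agent.Q57.GC

variable {p N : ℕ} {K : Type} [Field K] [Algebra ℂ K] {δ : Fin p → Place ℂ K → ℚ}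

/-- `s` is the asymptotic order of vanishing of `∑ i, lam i (K + Δ i)` along `P`, in the frame
`D` -/
def AsOrd (N : ℕ) (δ : Fin p → Place ℂ K → ℚ) (P : Place ℂ K) (D : Fin N → Derivation ℂ K K)
    (lam : Fin p → ℝ) (s : ℝ) : Prop :=
  (∀ ε : ℝ, 0 < ε → ∀ S : Finset K, ∃ θ : ℝ, 0 < θ ∧ ∃ M0 : ℕ, ∀ M : ℕ, M0 ≤ M →
    ∀ (μ : Fin p →₀ ℕ) (j : ℕ) (η : (Fin N → Derivation ℂ K K) → K), μ ≠ 0 →
      (∀ i, |(μ i : ℝ) - M * lam i| ≤ θ * M) → (j : ℝ) ≤ θ * M → ASec N δ S μ j η →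
        η D ≠ 0 → (s - ε) * M ≤ P.ord (η D)) ∧
  ∀ ε : ℝ, 0 < ε → ∀ M0 : ℕ, ∃ M : ℕ, M0 ≤ M ∧ ∃ (μ : Fin p →₀ ℕ)
    (η : (Fin N → Derivation ℂ K K) → K), (∀ i, |(μ i : ℝ) - M * lam i| ≤ ε * M) ∧
      MSec N δ μ η ∧ η D ≠ 0 ∧ (P.ord (η D) : ℝ) ≤ (s + ε) * M

/-- the rational matrix of degrees -/
def mat {N0 : ℕ} (g : Fin N0 → Fin p →₀ ℕ) : Fin N0 → Fin p → ℚ := fun b i => ((g b i : ℕ) : ℚ)

theorem mat_cast {N0 : ℕ} (g : Fin N0 → Fin p →₀ ℕ) (b : Fin N0) (i : Fin p) :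
    ((mat g b i : ℚ) : ℝ) = (g b i : ℝ) := Rat.cast_natCast _

theorem mat_pos {N0 : ℕ} {g : Fin N0 → Fin p →₀ ℕ} (hg : ∀ b, g b ≠ 0) : Pos (mat g) := by
  refine ⟨fun b i => Nat.cast_nonneg _, fun b => ?_⟩
  have h1 : ∃ i, g b i ≠ 0 := by
    by_contra hcon
    push Not at hcon
    exact hg b (Finsupp.ext hcon)
  obtain ⟨i, hi⟩ := h1
  refine ⟨i, ?_⟩
  have h2 : 1 ≤ g b i := Nat.one_le_iff_ne_zero.2 hi
  unfold mat
  exact_mod_cast h2

theorem mem_feas {N0 : ℕ} {g : Fin N0 → Fin p →₀ ℕ} {lam : Fin p → ℝ} {t : Fin N0 → ℝ} :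
    t ∈ Feas (mat g) lam ↔ (∀ b, 0 ≤ t b) ∧ ∀ i, lam i = ∑ b, t b * g b i := by
  unfold Feas
  simp only [Set.mem_ofPred_eq, mat_cast]

theorem ord_prod {N0 : ℕ} (P : Place ℂ K) {f : Fin N0 → K} (hf : ∀ b, f b ≠ 0)
    (e : Fin N0 → ℕ) : P.ord (∏ b, f b ^ e b) = ∑ b, (e b : ℤ) * P.ord (f b) := by
  classical
  have key : ∀ s : Finset (Fin N0), P.ord (∏ b ∈ s, f b ^ e b) =
      ∑ b ∈ s, (e b : ℤ) * P.ord (f b) := by
    intro s
    induction s using Finset.induction_on with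
    | empty => simp [P.ord_one]
    | insert b s hb ih =>
      rw [Finset.prod_insert hb, Finset.sum_insert hb, P.ord_mul (pow_ne_zero _ (hf b))
        (Finset.prod_ne_zero_iff.2 fun c _ => pow_ne_zero _ (hf c)), ih, P.ord_pow _ _]
  exact key Finset.univ

/-- **The asymptotic orders are values of a linear program.** -/
theorem asOrd {N0 : ℕ} {g : Fin N0 → Fin p →₀ ℕ}
    {ω : Fin N0 → (Fin N → Derivation ℂ K K) → K}
    (hg : ∀ b, g b ≠ 0 ∧ MSec N δ (g b) (ω b)) {P : Place ℂ K} {D : Fin N → Derivation ℂ K K}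
    (hD : ∀ b, ω b D ≠ 0)
    (hord : ∀ (S : Finset K), ∃ C1 : ℕ,
        ∀ (μ : Fin p →₀ ℕ) (j : ℕ) (η : (Fin N → Derivation ℂ K K) → K), μ ≠ 0 →
          ASec N δ S μ j η → η D = 0 ∨ ∃ e : Fin N0 → ℕ,
              (∀ i, |∑ b, (e b : ℤ) * g b i - μ i| ≤ C1 * (j + 1)) ∧
              ∑ b, (e b : ℤ) * P.ord (ω b D) ≤ P.ord (η D) + C1 * (j + 1))
    {lam : Fin p → ℝ} (hlam : (Feas (mat g) lam).Nonempty) :
    AsOrd N δ P D lam (val (mat g) (fun b => (P.ord (ω b D) : ℝ)) lam) := by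
  classical
  have hpos : Pos (mat g) := mat_pos fun b => (hg b).1
  set o : Fin N0 → ℝ := fun b => (P.ord (ω b D) : ℝ) with ho
  refine ⟨fun ε hε S => ?_, fun ε hε M0 => ?_⟩
  · obtain ⟨C1, hC1⟩ := hord S
    obtain ⟨θ0, hθ0, hnear⟩ := near_le hpos o lam (half_pos hε)
    obtain ⟨κ, hκ⟩ : ∃ κ, κ = min θ0 (ε / 2) := ⟨_, rfl⟩
    have hκ0 : 0 < κ := by rw [hκ]; exact lt_min hθ0 (half_pos hε)
    have hκ1 : κ ≤ θ0 := by rw [hκ]; exact min_le_left _ _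
    have hκ2 : κ ≤ ε / 2 := by rw [hκ]; exact min_le_right _ _
    have hC0 : (0 : ℝ) ≤ C1 := Nat.cast_nonneg _
    obtain ⟨M0, hM0⟩ := exists_nat_gt (2 * ((C1 : ℝ) + 1) / κ)
    rw [div_lt_iff₀ hκ0] at hM0
    refine ⟨κ / (2 * (C1 + 1)), by positivity, M0, fun M hM μ j η hμ hnr hj hη h0 => ?_⟩
    obtain ⟨e, he1, he2⟩ := (hC1 μ j η hμ hη).resolve_left h0
    have hMr : (M0 : ℝ) ≤ M := by exact_mod_cast hM
    have hMκ : 2 * ((C1 : ℝ) + 1) < M * κ :=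
      hM0.trans_le (mul_le_mul_of_nonneg_right hMr hκ0.le)
    have hMpos : (0 : ℝ) < M := by
      by_contra hcon
      push Not at hcon
      nlinarith
    have hθM : (C1 + 1) * (κ / (2 * (C1 + 1)) * M) = κ / 2 * M := by
      field_simp
    have hA : (C1 : ℝ) * (j + 1) + κ / (2 * (C1 + 1)) * M ≤ κ * M := by
      have h1 : (C1 : ℝ) * j ≤ C1 * (κ / (2 * (C1 + 1)) * M) :=
        mul_le_mul_of_nonneg_left hj hC0
      nlinarith
    have h1 : ∀ i, |∑ b, (e b : ℝ) / M * ((mat g b i : ℚ) : ℝ) - lam i| ≤ θ0 := by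
      intro i
      have h2 : |∑ b, (e b : ℝ) * g b i - μ i| ≤ C1 * (j + 1) := by
        have h2 := he1 i
        have h3 : ((|∑ b, (e b : ℤ) * g b i - μ i| : ℤ) : ℝ) ≤ ((C1 * (j + 1) : ℤ) : ℝ) := by
          exact_mod_cast h2
        push_cast at h3
        exact h3
      have h3 : ∑ b, (e b : ℝ) / M * ((mat g b i : ℚ) : ℝ) - lam i =
          ((∑ b, (e b : ℝ) * g b i - μ i) + (μ i - M * lam i)) / M := by
        rw [eq_div_iff hMpos.ne', sub_mul, Finset.sum_mul]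
        have h3 : ∀ b, (e b : ℝ) / M * ((mat g b i : ℚ) : ℝ) * M = (e b : ℝ) * g b i := by
          intro b
          rw [mat_cast]
          field_simp
        rw [Finset.sum_congr rfl fun b _ => h3 b]
        ring
      rw [h3, abs_div, abs_of_pos hMpos, div_le_iff₀ hMpos]
      refine ((abs_add_le _ _).trans (add_le_add h2 (hnr i))).trans (hA.trans ?_)
      exact mul_le_mul_of_nonneg_right hκ1 hMpos.le
    obtain ⟨-, h4⟩ := hnear (fun b => (e b : ℝ) / M) (fun b => by positivity) h1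
    have h5 : cost o (fun b => (e b : ℝ) / M) * M = ((∑ b, (e b : ℤ) * P.ord (ω b D) : ℤ) : ℝ) := by
      unfold cost
      rw [Finset.sum_mul]
      push_cast
      refine Finset.sum_congr rfl fun b _ => ?_
      change (e b : ℝ) / M * o b * M = (e b : ℝ) * o b
      rw [div_mul_eq_mul_div, div_mul_cancel₀ _ hMpos.ne']
    have h6 : ((∑ b, (e b : ℤ) * P.ord (ω b D) : ℤ) : ℝ) ≤ P.ord (η D) + C1 * (j + 1) := by
      have h7 : ((∑ b, (e b : ℤ) * P.ord (ω b D) : ℤ) : ℝ) ≤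
          ((P.ord (η D) + C1 * (j + 1) : ℤ) : ℝ) := by exact_mod_cast he2
      refine h7.trans (le_of_eq ?_)
      push_cast
      ring
    have h7 : (val (mat g) o lam - ε / 2) * M < cost o (fun b => (e b : ℝ) / M) * M :=
      mul_lt_mul_of_pos_right h4 hMpos
    have h8 : (C1 : ℝ) * (j + 1) ≤ ε / 2 * M := by
      have h9 : 0 ≤ κ / (2 * (C1 + 1)) * M := by positivity
      have h10 : κ * M ≤ ε / 2 * M := mul_le_mul_of_nonneg_right hκ2 hMpos.le
      linarith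
    have h9 : (val (mat g) o lam - ε) * M = (val (mat g) o lam - ε / 2) * M - ε / 2 * M := by
      ring
    rw [h9]
    linarith
  · obtain ⟨t, ht, hopt⟩ := exists_opt hpos o hlam
    obtain ⟨ht0, hlt⟩ := mem_feas.1 ht
    rw [val_eq ht hopt]
    obtain ⟨B, hB⟩ : ∃ B : ℝ, B = ∑ b, |o b| + ∑ i, ∑ b, (g b i : ℝ) := ⟨_, rfl⟩
    have hs1 : 0 ≤ ∑ b, |o b| := Finset.sum_nonneg fun _ _ => abs_nonneg _
    have hs2 : 0 ≤ ∑ i, ∑ b, (g b i : ℝ) :=
      Finset.sum_nonneg fun _ _ => Finset.sum_nonneg fun _ _ => Nat.cast_nonneg _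
    obtain ⟨M1, hM1⟩ := exists_nat_gt (B / ε)
    rw [div_lt_iff₀ hε] at hM1
    obtain ⟨M, hM, hMB⟩ : ∃ M : ℕ, M0 ≤ M ∧ B ≤ ε * M := by
      refine ⟨max M0 M1, le_max_left _ _, ?_⟩
      have h1 : (M1 : ℝ) ≤ (max M0 M1 : ℕ) := by exact_mod_cast le_max_right _ _
      have h2 := mul_le_mul_of_nonneg_left h1 hε.le
      linarith
    refine ⟨M, hM, ∑ b, ⌊(M : ℝ) * t b⌋₊ • g b,
      fun D => ∏ b, ω b D ^ ⌊(M : ℝ) * t b⌋₊, fun i => ?_,
      msec_prod (fun b => (hg b).2) _, ?_, ?_⟩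
    · have h1 : (((∑ b, ⌊(M : ℝ) * t b⌋₊ • g b) i : ℕ) : ℝ) =
          ∑ b, (⌊(M : ℝ) * t b⌋₊ : ℝ) * g b i := by
        have h0 : (∑ b, ⌊(M : ℝ) * t b⌋₊ • g b) i =
            ∑ b, ⌊(M : ℝ) * t b⌋₊ * g b i := by
          rw [Finsupp.finsetSum_apply]
          exact Finset.sum_congr rfl fun b _ => by rw [Finsupp.smul_apply, smul_eq_mul]
        rw [h0, Nat.cast_sum]
        exact Finset.sum_congr rfl fun b _ => by rw [Nat.cast_mul]
      rw [h1, hlt i, Finset.mul_sum, ← Finset.sum_sub_distrib]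
      refine (Finset.abs_sum_le_sum_abs _ _).trans ?_
      have h2 : ∀ b, |(⌊(M : ℝ) * t b⌋₊ : ℝ) * g b i -
          (M : ℝ) * (t b * g b i)| ≤ g b i := by
        intro b
        have h3 : (0 : ℝ) ≤ (M : ℝ) * t b :=
          mul_nonneg (Nat.cast_nonneg _) (ht0 b)
        have h4 := Nat.floor_le h3
        have h5 := Nat.lt_floor_add_one ((M : ℝ) * t b)
        have h6 : (⌊(M : ℝ) * t b⌋₊ : ℝ) * g b i -
            (M : ℝ) * (t b * g b i) =
            ((⌊(M : ℝ) * t b⌋₊ : ℝ) - (M : ℝ) * t b) * g b i := by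
          ring
        rw [h6, abs_mul, abs_of_nonneg (Nat.cast_nonneg _ : (0 : ℝ) ≤ g b i)]
        have h7 : |(⌊(M : ℝ) * t b⌋₊ : ℝ) - (M : ℝ) * t b| ≤ 1 := by
          rw [abs_le]
          constructor <;> linarith
        have h8 : (0 : ℝ) ≤ g b i := Nat.cast_nonneg _
        nlinarith
      refine (Finset.sum_le_sum fun b _ => h2 b).trans ?_
      have h3 : ∑ b, (g b i : ℝ) ≤ ∑ i, ∑ b, (g b i : ℝ) :=
        Finset.single_le_sum (f := fun i => ∑ b, (g b i : ℝ))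
          (fun _ _ => Finset.sum_nonneg fun _ _ => Nat.cast_nonneg _) (Finset.mem_univ i)
      linarith
    · exact Finset.prod_ne_zero_iff.2 fun b _ => pow_ne_zero _ (hD b)
    · rw [ord_prod P hD]
      push_cast
      have h1 : ∀ b, (⌊(M : ℝ) * t b⌋₊ : ℝ) * (P.ord (ω b D) : ℝ) ≤
          (M : ℝ) * (t b * o b) + |o b| := by
        intro b
        have h3 : (0 : ℝ) ≤ (M : ℝ) * t b :=
          mul_nonneg (Nat.cast_nonneg _) (ht0 b)
        have h4 := Nat.floor_le h3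
        have h5 := Nat.lt_floor_add_one ((M : ℝ) * t b)
        have h6 : (⌊(M : ℝ) * t b⌋₊ : ℝ) * o b -
            (M : ℝ) * (t b * o b) =
            ((⌊(M : ℝ) * t b⌋₊ : ℝ) - (M : ℝ) * t b) * o b := by
          ring
        have h7 : |(⌊(M : ℝ) * t b⌋₊ : ℝ) - (M : ℝ) * t b| ≤ 1 := by
          rw [abs_le]
          constructor <;> linarith
        have h8 : ((⌊(M : ℝ) * t b⌋₊ : ℝ) - (M : ℝ) * t b) * o b ≤
            |o b| := by
          refine (le_abs_self _).trans ?_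
          rw [abs_mul]
          nlinarith [abs_nonneg (o b)]
        change (⌊(M : ℝ) * t b⌋₊ : ℝ) * o b ≤ _
        linarith
      refine (Finset.sum_le_sum fun b _ => h1 b).trans ?_
      rw [Finset.sum_add_distrib, ← Finset.mul_sum]
      unfold cost
      nlinarith

end Pool.Agent.Q57.GC
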