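import Pool.Agent.Q57.GC.Main

/-!
The minimal model program with scaling: finitely many thresholds.
-/

set_option autoImplicit false
set_option linter.overlappingInstances false
set_option linter.unusedSectionVars false
set_option maxHeartbeats 1000000

open FF MvPolynomial Pool.Agent.W602.GT Pool.Agent.Q57.TP Pool.Agent.Q57.GM Pool.Agent.Q57.FG
open Pool.Agent.Q57.GG

namespace Pool.Agent.Q57.GC

/-- the point `(1, t)` -/
def pt (t : ℝ) : Fin 2 → ℝ := ![1, t]

theorem pt_nonneg {t : ℝ} (ht : 0 ≤ t) (i : Fin 2) : 0 ≤ pt t i := by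
  fin_cases i
  · exact zero_le_one
  · exact ht

theorem pt_comb (s u t : ℝ) (hst : s < t) :
    pt u = ((t - u) / (t - s)) • pt s + ((u - s) / (t - s)) • pt t := by
  have h1 : t - s ≠ 0 := (sub_pos.2 hst).ne'
  funext i
  rw [Pi.add_apply, Pi.smul_apply, Pi.smul_apply, smul_eq_mul, smul_eq_mul]
  fin_cases i
  · change (1 : ℝ) = (t - u) / (t - s) * 1 + (u - s) / (t - s) * 1
    field_simp
    ring
  · change u = (t - u) / (t - s) * s + (u - s) / (t - s) * t
    field_simp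
    ring

theorem sum_pt (h : Fin 2 → ℚ) (t : ℝ) : ∑ k, pt t k * h k = h 0 + t * h 1 := by
  rw [Fin.sum_univ_two]
  change (1 : ℝ) * h 0 + t * h 1 = _
  rw [one_mul]

/-- the thresholds -/
noncomputable def thr {n : ℕ} (h : Fin n → Fin 2 → ℚ) : Finset ℚ :=
  Finset.univ.image fun i => - h i 0 / h i 1

theorem mem_thr {n : ℕ} {h : Fin n → Fin 2 → ℚ} (i : Fin n) : - h i 0 / h i 1 ∈ thr h := by
  unfold thr
  exact Finset.mem_image_of_mem _ (Finset.mem_univ i)

/-- no threshold between: the value at `t` is in the closure of the cell of `m` -/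
theorem cell_pt {n : ℕ} {h : Fin n → Fin 2 → ℚ} {m t : ℝ}
    (hno : ∀ θ ∈ thr h, (θ : ℝ) = t ∨ ¬ ((m ≤ θ ∧ θ ≤ t) ∨ (t ≤ θ ∧ θ ≤ m))) :
    Cell h (pt m) (pt t) := by
  have key : ∀ i, (0 ≤ (h i 0 : ℝ) + m * h i 1 → 0 ≤ (h i 0 : ℝ) + t * h i 1) ∧
      ((h i 0 : ℝ) + m * h i 1 ≤ 0 → (h i 0 : ℝ) + t * h i 1 ≤ 0) := by
    intro i
    rcases hno _ (mem_thr i) with h1 | h1
    · by_cases hb : (h i 1 : ℝ) = 0
      · rw [hb, mul_zero, mul_zero]
        exact ⟨id, id⟩
      · have h2 : (h i 0 : ℝ) + t * h i 1 = 0 := by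
          rw [← h1]
          push_cast
          field_simp
          ring
        rw [h2]
        exact ⟨fun _ => le_rfl, fun _ => le_rfl⟩
    · by_cases hb : (h i 1 : ℝ) = 0
      · rw [hb, mul_zero, mul_zero]
        exact ⟨id, id⟩
      · have h2 : ∀ x : ℝ, (h i 0 : ℝ) + x * h i 1 =
            (h i 1 : ℝ) * (x - ((-h i 0 / h i 1 : ℚ) : ℝ)) := by
          intro x
          push_cast
          field_simp
          ring
        push Not at h1
        obtain ⟨h3, h4⟩ := h1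
        rw [h2, h2]
        set θ : ℝ := ((-h i 0 / h i 1 : ℚ) : ℝ)
        rcases lt_trichotomy m θ with h5 | h5 | h5
        · have h6 := h3 h5.le
          rcases lt_or_gt_of_ne hb with h7 | h7
          · exact ⟨fun _ => by nlinarith, fun h8 => by nlinarith⟩
          · exact ⟨fun h8 => by nlinarith, fun _ => by nlinarith⟩
        · exfalso
          have h6 := h3 h5.le
          have h7 := h4 h6.le
          linarith
        · have h6 : θ < t := by
            by_contra hcon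
            push Not at hcon
            have := h4 hcon
            linarith
          rcases lt_or_gt_of_ne hb with h7 | h7
          · exact ⟨fun h8 => by nlinarith, fun _ => by nlinarith⟩
          · exact ⟨fun _ => by nlinarith, fun h8 => by nlinarith⟩
  intro i
  rw [sum_pt, sum_pt]
  exact key i

variable {N : ℕ} {K : Type} [Field K] [Algebra ℂ K] {δ : Fin 2 → Place ℂ K → ℚ}

/-- **Scaling.** -/
theorem main_sc {w : (Fin N → Derivation ℂ K K) → K} {u : K} (hu : u ≠ 0)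
    {D0 : Fin N → Derivation ℂ K K}
    (hpl : ∀ (m : ℕ) (η : (Fin N → Derivation ℂ K K) → K), IsPluri m η →
      ∀ D, η D * u ^ m = w D ^ m * η D0)
    {N0 : ℕ} {g : Fin N0 → Fin 2 →₀ ℕ} {ω : Fin N0 → (Fin N → Derivation ℂ K K) → K}
    (hg : ∀ b, g b ≠ 0 ∧ MSec N δ (g b) (ω b))
    (hD0 : ∀ b, ω b D0 ≠ 0) (hdv : ∃ P : Place ℂ K, Divisorial N P)
    (hord : ∀ (P : Place ℂ K) (S : Finset K) (D : Fin N → Derivation ℂ K K), ∃ C1 : ℕ,
        ∀ (μ : Fin 2 →₀ ℕ) (j : ℕ) (η : (Fin N → Derivation ℂ K K) → K), μ ≠ 0 →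
          ASec N δ S μ j η → η D = 0 ∨ ((∀ b, ω b D ≠ 0) ∧
            ∃ e : Fin N0 → ℕ,
              (∀ i, |∑ b, (e b : ℤ) * g b i - μ i| ≤ C1 * (j + 1)) ∧
              ∑ b, (e b : ℤ) * P.ord (ω b D) ≤ P.ord (η D) + C1 * (j + 1))) :
    ∃ (T : ℕ) (Θ : Finset ℚ), 1 ≤ T ∧
      (∀ s t : ℝ, 0 ≤ s → s ≤ t → ¬ PsefR N δ (pt s) → PsefR N δ (pt t) → ∃ θ ∈ Θ,
        s < θ ∧ (θ : ℝ) ≤ t ∧ ∀ x : ℝ, 0 ≤ x → x ≤ t → (PsefR N δ (pt x) ↔ (θ : ℝ) ≤ x)) ∧
      (∀ s x t : ℝ, 0 ≤ s → s ≤ x → x ≤ t → (∀ θ ∈ Θ, ¬ (s < θ ∧ (θ : ℝ) < t)) → s < x → x < t →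
        NefR N δ (pt x) → NefR N δ (pt s) ∧ NefR N δ (pt t)) ∧
      (∀ a b : ℕ, NefR N δ ![(a : ℝ), (b : ℝ)] → ∀ P : Place ℂ K, Divisorial N P →
        ∃ μ : Fin 2 →₀ ℕ, μ 0 = T * a ∧ μ 1 = T * b ∧ ∃ η, MSec N δ μ η ∧ NV N δ μ η P) ∧
      ∀ (P : Place ℂ K) (D : Fin N → Derivation ℂ K K),
        (∃ (S : Finset K) (μ : Fin 2 →₀ ℕ) (j : ℕ) (η : (Fin N → Derivation ℂ K K) → K), μ ≠ 0 ∧
          ASec N δ S μ j η ∧ η D ≠ 0) →
        ∃ σ : ℝ → ℝ,
          (∀ t, 0 ≤ t → PsefR N δ (pt t) → AsOrd N δ P D (pt t) (σ t)) ∧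
          (∀ s x t, 0 ≤ s → s ≤ x → x ≤ t → PsefR N δ (pt s) → PsefR N δ (pt t) →
            (∀ θ ∈ Θ, ¬ (s < θ ∧ (θ : ℝ) < t)) →
              (t - s) * σ x = (t - x) * σ s + (x - s) * σ t) ∧
          ∀ a b : ℕ, 1 ≤ a → PsefR N δ (pt ((b : ℝ) / a)) →
            ∃ μ : Fin 2 →₀ ℕ, μ 0 = T * a ∧ μ 1 = T * b ∧ ∃ η, MSec N δ μ η ∧ η D ≠ 0 ∧
              (P.ord (η D) : ℝ) = T * a * σ ((b : ℝ) / a) := by
  classical
  have hdet : ∀ (m : ℕ) (η : (Fin N → Derivation ℂ K K) → K), IsPluri m η → η ≠ 0 →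
      η D0 ≠ 0 := by
    intro m η hη h0 h5
    apply h0
    funext D
    have h6 := hpl m η hη D
    rw [h5, mul_zero] at h6
    exact (mul_eq_zero.1 h6).resolve_right (pow_ne_zero _ hu)
  obtain ⟨P0, hP0⟩ := hdv
  have hpsef : ∀ lam : Fin 2 → ℝ, (∀ i, 0 ≤ lam i) →
      (PsefR N δ lam ↔ (Feas (mat g) lam).Nonempty) := by
    intro lam hlam
    rw [psefR_iff hg (P := P0) hD0 hdet (fun S => by
      obtain ⟨C1, hC1⟩ := hord P0 S D0
      refine ⟨C1, fun μ j η hμ hη => (hC1 μ j η hμ hη).imp id fun h => ?_⟩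
      obtain ⟨-, e, he, -⟩ := h
      exact ⟨e, he⟩) lam hlam]
    exact exists_congr fun t => mem_feas.symm
  have hconv : ∀ s x t : ℝ, 0 ≤ s → s ≤ x → x ≤ t → PsefR N δ (pt s) → PsefR N δ (pt t) →
      PsefR N δ (pt x) := by
    intro s x t hs hsx hxt h1 h2
    rcases (hsx.trans hxt).eq_or_lt with h3 | h3
    · have h4 : x = s := le_antisymm (hxt.trans h3.ge) hsx
      rw [h4]
      exact h1
    · rw [hpsef _ (pt_nonneg (hs.trans hsx))]
      obtain ⟨t1, ht1⟩ := (hpsef _ (pt_nonneg hs)).1 h1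
      obtain ⟨t2, ht2⟩ := (hpsef _ (pt_nonneg (hs.trans (hsx.trans hxt)))).1 h2
      have h5 : 0 < t - s := sub_pos.2 h3
      rw [pt_comb s x t h3]
      exact ⟨_, feas_add (feas_smul (div_nonneg (sub_nonneg.2 hxt) h5.le) ht1)
        (feas_smul (div_nonneg (sub_nonneg.2 hsx) h5.le) ht2)⟩
  obtain ⟨T, n, h, hT, hcl, hnf, hσ⟩ := main_gc hu hpl hg hD0 ⟨P0, hP0⟩ hord
  have hμ2 : ∀ a b : ℕ, ∃ μ : Fin 2 →₀ ℕ, μ 0 = a ∧ μ 1 = b ∧
      (fun i => (μ i : ℝ)) = ![(a : ℝ), (b : ℝ)] := by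
    intro a b
    refine ⟨Finsupp.equivFunOnFinite.symm ![a, b], rfl, rfl, ?_⟩
    funext i
    fin_cases i
    · rfl
    · rfl
  refine ⟨T, thr h, hT, fun s t hs hst hns hpt => ?_, fun s x t hs hsx hxt hno h1 h2 hn => ?_,
    fun a b hn P hP => ?_, fun P D hnd => ?_⟩
  · -- the pseudo-effective threshold
    have hst' : s < t := by
      rcases hst.eq_or_lt with h1 | h1
      · rw [h1] at hns
        exact absurd hpt hns
      · exact h1
    let A := (thr h).filter fun θ : ℚ => s < (θ : ℝ) ∧ (θ : ℝ) ≤ t ∧ PsefR N δ (pt θ)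
    have hA : A.Nonempty := by
      by_contra hcon
      rw [Finset.not_nonempty_iff_eq_empty] at hcon
      have hA' : ∀ θ ∈ thr h, s < (θ : ℝ) → (θ : ℝ) ≤ t → ¬ PsefR N δ (pt θ) := by
        intro θ hθ h1 h2 h3
        have h4 : θ ∈ A := Finset.mem_filter.2 ⟨hθ, h1, h2, h3⟩
        rw [hcon] at h4
        exact absurd h4 (Finset.notMem_empty _)
      -- the largest threshold below
      by_cases hB : ((thr h).filter fun θ : ℚ => s < (θ : ℝ) ∧ (θ : ℝ) ≤ t).Nonempty
      · obtain ⟨θ, hθ, hmax⟩ := Finset.exists_max_image _ (fun θ : ℚ => θ) hB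
        rw [Finset.mem_filter] at hθ
        refine hA' θ hθ.1 hθ.2.1 hθ.2.2 (hcl (pt t) (pt θ) (pt_nonneg (hs.trans hst)) hpt
          (cell_pt fun θ' hθ' => ?_)).2.1
        by_cases h1 : θ' = θ
        · left
          rw [h1]
        · right
          rintro (⟨h2, h3⟩ | ⟨h2, h3⟩)
          · have h4 : (t : ℝ) ≤ θ := h2.trans h3
            have h5 : (θ' : ℝ) = θ := le_antisymm h3 (hθ.2.2.trans h2)
            exact h1 (by exact_mod_cast h5)
          · have h4 := hmax θ' (Finset.mem_filter.2 ⟨hθ', hθ.2.1.trans_le h2, h3⟩)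
            have h5 : (θ' : ℝ) = θ := le_antisymm (by exact_mod_cast h4) h2
            exact h1 (by exact_mod_cast h5)
      · rw [Finset.not_nonempty_iff_eq_empty] at hB
        refine hns (hcl (pt t) (pt s) (pt_nonneg (hs.trans hst)) hpt
          (cell_pt fun θ' hθ' => ?_)).2.1
        by_cases h1 : (θ' : ℝ) = s
        · exact Or.inl h1
        · right
          rintro (⟨h2, h3⟩ | ⟨h2, h3⟩)
          · linarith
          · have h4 : θ' ∈ (thr h).filter fun θ : ℚ => s < (θ : ℝ) ∧ (θ : ℝ) ≤ t :=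
              Finset.mem_filter.2 ⟨hθ', lt_of_le_of_ne h2 (Ne.symm h1), h3⟩
            rw [hB] at h4
            exact absurd h4 (Finset.notMem_empty _)
    obtain ⟨θ, hθ, hmin⟩ := Finset.exists_min_image A (fun θ : ℚ => θ) hA
    rw [Finset.mem_filter] at hθ
    obtain ⟨hθ1, hθ2, hθ3, hθ4⟩ := hθ
    refine ⟨θ, hθ1, hθ2, hθ3, fun x hx hxt => ⟨fun hpx => ?_, fun hle =>
      hconv θ x t (hs.trans hθ2.le) hle hxt hθ4 hpt⟩⟩
    by_contra hcon
    push Not at hcon
    have hsx : s < x := by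
      by_contra hcon2
      push Not at hcon2
      exact hns (hconv x s t hx hcon2 hst hpx hpt)
    -- the smallest threshold above s which is pseudo-effective is θ: contradiction
    by_cases hB : ((thr h).filter fun θ' : ℚ => s < (θ' : ℝ) ∧ (θ' : ℝ) ≤ x).Nonempty
    · obtain ⟨θ1, hθ1', hmax⟩ := Finset.exists_max_image _ (fun θ : ℚ => θ) hB
      rw [Finset.mem_filter] at hθ1'
      have h6 : PsefR N δ (pt θ1) := (hcl (pt x) (pt θ1) (pt_nonneg hx) hpx
          (cell_pt fun θ' hθ' => by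
        by_cases h1 : θ' = θ1
        · left
          rw [h1]
        · right
          rintro (⟨h2, h3⟩ | ⟨h2, h3⟩)
          · have h5 : (θ' : ℝ) = θ1 := le_antisymm h3 (hθ1'.2.2.trans h2)
            exact h1 (by exact_mod_cast h5)
          · have h4 := hmax θ' (Finset.mem_filter.2 ⟨hθ', hθ1'.2.1.trans_le h2, h3⟩)
            have h5 : (θ' : ℝ) = θ1 := le_antisymm (by exact_mod_cast h4) h2
            exact h1 (by exact_mod_cast h5))).2.1
      have h7 := hmin θ1 (Finset.mem_filter.2 ⟨hθ1'.1, hθ1'.2.1, hθ1'.2.2.trans hxt, h6⟩)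
      have h8 : (θ : ℝ) ≤ θ1 := by exact_mod_cast h7
      linarith [hθ1'.2.2]
    · rw [Finset.not_nonempty_iff_eq_empty] at hB
      refine hns (hcl (pt x) (pt s) (pt_nonneg hx) hpx (cell_pt fun θ' hθ' => ?_)).2.1
      by_cases h1 : (θ' : ℝ) = s
      · exact Or.inl h1
      · right
        rintro (⟨h2, h3⟩ | ⟨h2, h3⟩)
        · linarith
        · have h4 : θ' ∈ (thr h).filter fun θ' : ℚ => s < (θ' : ℝ) ∧ (θ' : ℝ) ≤ x :=
            Finset.mem_filter.2 ⟨hθ', lt_of_le_of_ne h2 (Ne.symm h1), h3⟩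
          rw [hB] at h4
          exact absurd h4 (Finset.notMem_empty _)
  · have hcell : ∀ y, (y = s ∨ y = t) → Cell h (pt x) (pt y) := by
      intro y hy
      refine cell_pt fun θ hθ => ?_
      by_cases h3 : (θ : ℝ) = y
      · exact Or.inl h3
      · right
        intro h4
        have h5 := hno θ hθ
        push Not at h5
        rcases hy with hy | hy
        · rw [hy] at h3 h4
          rcases h4 with ⟨h6, h7⟩ | ⟨h6, h7⟩
          · linarith
          · have h8 := h5 (lt_of_le_of_ne h6 (Ne.symm h3))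
            linarith
        · rw [hy] at h3 h4
          rcases h4 with ⟨h6, h7⟩ | ⟨h6, h7⟩
          · have h8 := h5 (by linarith)
            exact h3 (le_antisymm h7 h8)
          · linarith
    have hx0 : 0 ≤ x := hs.trans hsx
    have hpx : PsefR N δ (pt x) := by
      rw [hpsef _ (pt_nonneg hx0)]
      obtain ⟨t0, h3, h4, -⟩ := semi_of_nefR hu hpl hg hord (pt x) (pt_nonneg hx0) hn P0 hP0
      exact ⟨t0, mem_feas.2 ⟨h3, h4⟩⟩
    exact ⟨(hcl _ _ (pt_nonneg hx0) hpx (hcell s (Or.inl rfl))).2.2 hn,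
      (hcl _ _ (pt_nonneg hx0) hpx (hcell t (Or.inr rfl))).2.2 hn⟩
  · obtain ⟨μ, h1, h2, h3⟩ := hμ2 a b
    rw [← h3] at hn
    obtain ⟨η, h4, h5⟩ := hnf μ hn P hP
    refine ⟨T • μ, ?_, ?_, η, h4, h5⟩
    · rw [Finsupp.smul_apply, smul_eq_mul, h1]
    · rw [Finsupp.smul_apply, smul_eq_mul, h2]
  · obtain ⟨σ, h1, h2, h3, h4⟩ := hσ P D hnd
    refine ⟨fun t => σ (pt t), fun t ht hpt => h1 _ (pt_nonneg ht) hpt,
      fun s x t hs hsx hxt hps hpt hno => ?_, fun a b ha hps => ?_⟩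
    · rcases (hsx.trans hxt).eq_or_lt with h5 | h5
      · have h6 : x = s := le_antisymm (hxt.trans h5.ge) hsx
        rw [h6, ← h5]
        ring
      · -- the midpoint
        have hm1 : s < (s + t) / 2 := by linarith
        have hm2 : (s + t) / 2 < t := by linarith
        have hm0 : 0 ≤ (s + t) / 2 := by linarith
        have hpm := hconv s _ t hs hm1.le hm2.le hps hpt
        have hcell : ∀ y, (y = s ∨ y = t) → Cell h (pt ((s + t) / 2)) (pt y) := by
          intro y hy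
          refine cell_pt fun θ hθ => ?_
          by_cases h3 : (θ : ℝ) = y
          · exact Or.inl h3
          · right
            intro h4
            have h5 := hno θ hθ
            push Not at h5
            rcases hy with hy | hy
            · rw [hy] at h3 h4
              rcases h4 with ⟨h6, h7⟩ | ⟨h6, h7⟩
              · linarith
              · have h8 := h5 (lt_of_le_of_ne h6 (Ne.symm h3))
                linarith
            · rw [hy] at h3 h4
              rcases h4 with ⟨h6, h7⟩ | ⟨h6, h7⟩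
              · have h8 := h5 (by linarith)
                exact h3 (le_antisymm h7 h8)
              · linarith
        have hts : 0 < t - s := sub_pos.2 h5
        have hcs : ∀ (y c : ℝ), 0 ≤ c → (y = s ∨ y = t) →
            Cell h (pt ((s + t) / 2)) (c • pt y) := by
          intro y c hc hy i
          have h6 := hcell y hy i
          have h7 : ∑ k, (c • pt y) k * (h i k : ℝ) = c * ∑ k, pt y k * (h i k : ℝ) := by
            rw [Finset.mul_sum]
            exact Finset.sum_congr rfl fun k _ => by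
              rw [Pi.smul_apply, smul_eq_mul, mul_assoc]
          rw [h7]
          exact ⟨fun h8 => mul_nonneg hc (h6.1 h8),
            fun h8 => mul_nonpos_of_nonneg_of_nonpos hc (h6.2 h8)⟩
        have hc1 : 0 ≤ (t - x) / (t - s) := div_nonneg (sub_nonneg.2 hxt) hts.le
        have hc2 : 0 ≤ (x - s) / (t - s) := div_nonneg (sub_nonneg.2 hsx) hts.le
        have h6 := h3 (pt ((s + t) / 2)) (((t - x) / (t - s)) • pt s)
          (((x - s) / (t - s)) • pt t) (pt_nonneg hm0) hpm (hcs s _ hc1 (Or.inl rfl))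
          (hcs t _ hc2 (Or.inr rfl))
        rw [← pt_comb s x t h5, h2 _ _ (pt_nonneg hs) hps hc1,
          h2 _ _ (pt_nonneg (hs.trans h5.le)) hpt hc2] at h6
        change (t - s) * σ (pt x) = (t - x) * σ (pt s) + (x - s) * σ (pt t)
        rw [h6]
        field_simp
    · obtain ⟨μ, h5, h6, h7⟩ := hμ2 a b
      have ha0 : (0 : ℝ) < a := by exact_mod_cast ha
      have h8 : (fun i => (μ i : ℝ)) = (a : ℝ) • pt ((b : ℝ) / a) := by
        rw [h7]
        funext i
        rw [Pi.smul_apply, smul_eq_mul]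
        fin_cases i
        · change (a : ℝ) = a * 1
          rw [mul_one]
        · change (b : ℝ) = a * (b / a)
          field_simp
      have hb0 : (0 : ℝ) ≤ (b : ℝ) / a := by positivity
      have h9 : PsefR N δ fun i => (μ i : ℝ) := by
        rw [h8, hpsef ((a : ℝ) • pt ((b : ℝ) / a))
          (fun i => mul_nonneg ha0.le (pt_nonneg hb0 i))]
        obtain ⟨t0, ht0⟩ := (hpsef _ (pt_nonneg hb0)).1 hps
        exact ⟨_, feas_smul ha0.le ht0⟩
      obtain ⟨η, h10, h11, h12⟩ := h4 μ h9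
      refine ⟨T • μ, ?_, ?_, η, h10, h11, ?_⟩
      · rw [Finsupp.smul_apply, smul_eq_mul, h5]
      · rw [Finsupp.smul_apply, smul_eq_mul, h6]
      · rw [h12, h8, h2 _ _ (pt_nonneg hb0) hps ha0.le, mul_assoc]

end Pool.Agent.Q57.GC
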