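import Pool.Agent.Q57.GC.Scale
import Pool.Agent.Q57.TC.TopA

/-!
The minimal model program with scaling for covers of the projective space.
-/

set_option autoImplicit false
set_option linter.overlappingInstances false
set_option linter.unusedSectionVars false
set_option maxHeartbeats 1000000

open FF MvPolynomial Pool.Agent.W603.LV Pool.Agent.W619.PQ
open Pool.Agent.W619.TW Pool.Agent.W602.GT Pool.Agent.TH122.AB Pool.Agent.TH756.PN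
open Pool.Agent.Y169.CH Pool.Agent.W602.Cov Pool.Agent.W602.Cov.G Pool.Agent.Y169.TH
open Pool.Agent.Q57.TP Pool.Agent.TH152.AC Pool.Agent.Q57.GM Pool.Agent.Q57.FG
open Pool.Agent.Q57.GG Pool.Agent.Q57.TC

namespace Pool.Agent.Q57.GC

variable {d R : ℕ} {K : Type} [Field K] [Algebra ℂ K]
  {x : Fin (d + 2) → K} {F : Fin (d + 2) → MvPolynomial (Fin (d + 2)) ℂ}
  {dF : Fin (d + 2) → ℕ} {z : Fin R → K} {M : Fin R → ℕ} {a : Fin R → Fin (d + 2) → ℕ}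

/-- the conclusion -/
def Thresholds (N : ℕ) (δ : Fin 2 → Place ℂ K → ℚ) : Prop :=
    ∃ (T : ℕ) (Θ : Finset ℚ), 1 ≤ T ∧
      (∀ s t : ℝ, 0 ≤ s → s ≤ t → ¬ PsefR N δ (pt s) → PsefR N δ (pt t) → ∃ θ ∈ Θ,
        s < θ ∧ (θ : ℝ) ≤ t ∧ ∀ x : ℝ, 0 ≤ x → x ≤ t → (PsefR N δ (pt x) ↔ (θ : ℝ) ≤ x)) ∧
      (∀ s x t : ℝ, 0 ≤ s → s ≤ x → x ≤ t → (∀ θ ∈ Θ, ¬ (s < θ ∧ (θ : ℝ) < t)) → s < x → x < t →
        NefR N δ (pt x) → NefR N δ (pt s) ∧ NefR N δ (pt t)) ∧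
      (∀ a b : ℕ, NefR N δ ![(a : ℝ), (b : ℝ)] → ∀ P : Place ℂ K, Divisorial N P →
        ∃ μ : Fin 2 →₀ ℕ, μ 0 = T * a ∧ μ 1 = T * b ∧ ∃ η, MSec N δ μ η ∧ NV N δ μ η P) ∧
      ∀ (P : Place ℂ K) (D : Fin N → Derivation ℂ K K),
        (∃ (S : Finset K) (μ : Fin 2 →₀ ℕ) (j : ℕ) (η : (Fin N → Derivation ℂ K K) → K), μ ≠ 0 ∧
          ASec N δ S μ j η ∧ η D ≠ 0) →
        ∃ σ : ℝ → ℝ,
          (∀ t, 0 ≤ t → PsefR N δ (pt t) → AsOrd N δ P D (pt t) (σ t)) ∧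
          (∀ s x t, 0 ≤ s → s ≤ x → x ≤ t → PsefR N δ (pt s) → PsefR N δ (pt t) →
            (∀ θ ∈ Θ, ¬ (s < θ ∧ (θ : ℝ) < t)) →
              (t - s) * σ x = (t - x) * σ s + (x - s) * σ t) ∧
          ∀ a b : ℕ, 1 ≤ a → PsefR N δ (pt ((b : ℝ) / a)) →
            ∃ μ : Fin 2 →₀ ℕ, μ 0 = T * a ∧ μ 1 = T * b ∧ ∃ η, MSec N δ μ η ∧ η D ≠ 0 ∧
              (P.ord (η D) : ℝ) = T * a * σ ((b : ℝ) / a)

/-- **Covers of the projective space.** -/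
theorem top_s (hx0 : x 0 ≠ 0)
    (hbas : IsTranscendenceBasis ℂ fun b : Fin (d + 1) => x b.succ / x 0) (hd : ∀ k, 0 < dF k)
    (hh : ∀ k, (F k).IsHomogeneous (dF k)) (hS : Snc F) (hM : ∀ j, 0 < M j)
    (hz : ∀ j, z j ^ M j = ∏ k, (aeval x (F k) / x 0 ^ dF k) ^ a j k)
    (hdiv : ∀ j, M j ∣ ∑ k, a j k * dF k)
    (hgen : IntermediateField.adjoin ℂ
      (Set.range (fun b : Fin (d + 1) => x b.succ / x 0) ∪ Set.range z) = ⊤)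
    (hκ : d + 2 ≤ ∑ k, dF k)
    {ψ : Fin 2 → (Fin (d + 2) → ℕ) → ℚ} (hψ0 : ∀ i, ψ i 0 = 0) (hψ1 : ∀ i v, 0 ≤ ψ i v)
    (hmul : ∀ i v (r : ℕ), 1 ≤ r → Pool.Agent.Y169.TH.Adm M a v → ψ i (r • v) ≤ r * ψ i v)
    (hfg : ∃ T : Finset (Fin (d + 2) → ℕ), (∀ s ∈ T, Pool.Agent.Y169.TH.Adm M a s) ∧
      ∀ v, Pool.Agent.Y169.TH.Adm M a v →
      ∃ w : (Fin (d + 2) → ℕ) → ℚ, (∀ s, 0 ≤ w s) ∧ (∀ k, ∑ s ∈ T, w s * s k ≤ v k) ∧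
        ∀ i, ψ i v ≤ ∑ s ∈ T, w s * ψ i s) {δ : Fin 2 → Place ℂ K → ℚ}
    (hδ : ∀ i P, δ i P = 1 - ψ i (mul F dF x P) - lDA F dF x P) : Thresholds (d + 1) δ := by
  classical
  obtain ⟨N0, g, ω, h1, h2, h5, w, u, D0, hu, h3, h4⟩ :=
    main_a (c := fun i => cpa (ψ i)) (δ := δ) hx0 hbas hd hh hS hM hz hdiv hgen hκ
      (fun i => if_pos rfl) (fun i => cpa_le (hψ1 i)) (fun i => cpa_mul (hmul i)) (by
        obtain ⟨T, hT1, hT2⟩ := hfg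
        refine ⟨T, hT1, fun v hv => ?_⟩
        obtain ⟨w, h1, h2, h3⟩ := hT2 v hv
        refine ⟨w, h1, h2, fun i => ?_⟩
        rw [cpa_ne hv.1, sub_sub_cancel]
        refine (h3 i).trans (le_of_eq (Finset.sum_congr rfl fun s hs => ?_))
        rw [cpa_ne (hT1 s hs).1, sub_sub_cancel]) (fun i P => by
        rw [hδ, cpa_ite (hψ0 i)])
  exact main_sc hu h4 h1 h3 h5 h2

end Pool.Agent.Q57.GC
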